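import Pool.Agent.MP_f74662_gt.Mg.Final

/-!
The configuration of `Final.lean` consists of countable sets.
-/

set_option autoImplicit false

open Set Filter Topology

namespace Pool.Agent.MP_f74662_gt

lemma Le.countable {A B : Set T} (h : Le A B) (hB : B.Countable) : A.Countable := by
  obtain ⟨f, hf, he⟩ := h
  exact hf.countable_of_injOn he.injOn hB

lemma cnt_sig {Y : ℕ → Set T} (h : ∀ n, (Y n).Countable) : (sig Y).Countable := by
  refine (countable_iUnion fun n => (h n).image (cn n)).mono ?_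
  rintro _ ⟨n, -, y, hy, rfl⟩
  exact mem_iUnion.2 ⟨n, y, hy, rfl⟩

lemma cnt_add {A B : Set T} (hA : A.Countable) (hB : B.Countable) : (add A B).Countable := by
  refine cnt_sig fun n => ?_
  split_ifs
  exacts [hA, hB, countable_empty]

lemma cnt_om {A : Set T} (hA : A.Countable) : (om A).Countable := cnt_sig fun _ => hA

lemma cnt_L {A : Set T} (hA : A.Countable) : (L A).Countable := (cnt_om hA).insert root

lemma cnt_gen {D : Set (Set T)} (h : ∀ a ∈ D, a.Countable) : (gen D).Countable :=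
  gen_ind Set.Countable countable_empty (fun _ _ => cnt_add) h

lemma cnt_MM (n : ℕ) : (MM n).Countable := by
  induction n with
  | zero => exact cnt_L countable_empty
  | succ n ih => exact cnt_L (cnt_om ih)

lemma cnt_PP {G D : Set (Set T)} {g : Set T} (hg : g.Countable) (h : Dn G g D) :
    (PP D).Countable :=
  cnt_L (cnt_gen fun a ha => (h.2.1 a ha).countable hg)

theorem config_cnt (N : ℕ) (hN : 1 ≤ N) : ∃ A B C : Set T, ∃ X : ℕ → Set T,
    Cov A B ∧ Cov B C ∧ Cov A (X 1) ∧ (∀ i, 1 ≤ i → i < N → Cov (X i) (X (i + 1))) ∧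
      Cov (X N) C ∧ C.Countable := by
  obtain ⟨n, rfl⟩ : ∃ n, N = n + 1 := ⟨N - 1, by omega⟩
  obtain ⟨G, hG1, hG2, hG3⟩ := good_MM (n + 1)
  have S : Setup G (om (MM n)) :=
    ⟨hG1, hG2, hG3, fun h => MM_succ_not_le n (le_of_L_le_om h)⟩
  have hg : ch (n + 1) (n + 1) = L (om (MM n)) := ch_diag _
  have hle : ∀ i ≤ n + 1, Le (ch (n + 1) i) (L (om (MM n))) := fun i hi => hg ▸ ch_le _ hi le_rfl
  have hrep : ∀ i ≤ n + 1, ∃ a ∈ G, Le (ch (n + 1) i) a ∧ Le a (ch (n + 1) i) := by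
    intro i hi
    obtain ⟨X, hX⟩ := ch_germ (n + 1) i
    have := hle i hi
    rw [hX] at this ⊢
    exact S.exists_rep this
  have hfin : {D | Dn G (L (om (MM n))) D}.Finite :=
    (At.finite hG1).finite_subsets.subset fun _ h => h.1
  obtain ⟨D, hD1, hD2, hD3, hD4⟩ := cover_chain hfin (n + 1) (fun i => below G (ch (n + 1) i))
    (fun i hi => dn_below (hle i hi)) (fun i hi => by
      refine ⟨fun a ha => ⟨ha.1, ha.2.trans (ch_lt _ i hi).1⟩, fun h => ?_⟩
      obtain ⟨a, ha, h1, h2⟩ := hrep (i + 1) hi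
      exact (ch_lt _ i hi).2 (h1.trans (h ⟨Or.inl ha, h2⟩).2))
  simp only [hg] at hD1
  have hmono : ∀ i ≤ n + 1, D 0 ⊆ D i := by
    intro i hi
    induction i with
    | zero => exact subset_rfl
    | succ i ih => exact (ih (by omega)).trans (hD4 i (by omega)).1.le
  obtain ⟨a, ha, ha1, ha2⟩ := hrep 0 (by omega)
  have hK : ¬ Le a (om (MM n)) := fun h => K_not_le n (by
    have := ha1.trans h
    rw [ch_zero_succ] at this ⊢
    exact le_of_L_le_om this)
  have S2 : Setup2 G (om (MM n)) (D 0) := by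
    refine ⟨S, hD3 0 (by omega), fun h => hK ?_, fun h => ?_, a, ha, ha2.trans (hle 0 (by omega)),
      fun h => ?_, hK⟩
    · exact (At.atom hG2 (Or.inl ha)).le_of_idl (idl_of_L_le_L h)
        (le_gen (S.dn_finite (hD3 0 (by omega))) (hD2 ⟨Or.inl ha, ha2⟩))
    · exact (hD4 0 (by omega)).1.2 (h ▸ Dn.subset_top (hD3 1 (by omega)))
    · exact (ch_lt _ 0 (by omega)).2 ((hle 1 (by omega)).trans (h.trans ha2))
  have hc : ∀ i < n + 1, Cov (add (L (YX G (L (om (MM n))) (D 0))) (add (PP (D i)) (om (L (om (MM n))))))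
      (add (L (YX G (L (om (MM n))) (D 0))) (add (PP (D (i + 1))) (om (L (om (MM n)))))) :=
    fun i hi => S2.cov4 (hD3 i hi.le) (hD3 (i + 1) hi) (hmono i hi.le) (hD4 i hi).1
      fun E hE => (hD4 i hi).2 E hE
  refine ⟨_, _, _, fun i => add (L (YX G (L (om (MM n))) (D 0)))
    (add (PP (D (i - 1))) (om (L (om (MM n))))), S2.cov1, S2.cov2, S2.cov3, fun i h1 h2 => ?_, ?_, ?_⟩
  · obtain ⟨j, rfl⟩ : ∃ j, i = j + 1 := ⟨i - 1, by omega⟩
    exact hc j (by omega)
  · have := hc n (by omega)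
    rwa [hD1] at this
  · have hc : (L (om (MM n))).Countable := cnt_MM (n + 1)
    refine cnt_add (cnt_L (cnt_gen ?_)) (cnt_add (cnt_PP hc (dn_below (Le.refl _))) (cnt_om hc))
    rintro _ (⟨b, hb, rfl⟩ | ⟨E, hE, rfl⟩)
    · exact cnt_om (hb.2.1.countable hc)
    · exact cnt_PP hc hE.1

lemma emb_iff_sub (X Y : Set ℝ) :
    (∃ S : Set ℝ, S ⊆ Y ∧ Nonempty (X ≃ₜ S)) ↔ ∃ f : X → Y, IsEmbedding f := by
  constructor
  · rintro ⟨S, hS, ⟨h⟩⟩
    exact ⟨_, (IsEmbedding.inclusion hS).comp h.isEmbedding⟩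
  · rintro ⟨f, hf⟩
    refine ⟨range (Subtype.val ∘ f), ?_, ⟨(IsEmbedding.subtypeVal.comp hf).toHomeomorph⟩⟩
    rintro _ ⟨x, rfl⟩
    exact (f x).2

lemma exists_emb_cantor : ∃ e : T → ℝ, IsEmbedding e ∧ ∀ x, e x ∈ cantorSet :=
  ⟨_, IsEmbedding.subtypeVal.comp cantorSetHomeomorphNatToBool.symm.isEmbedding,
    fun x => (cantorSetHomeomorphNatToBool.symm x).2⟩

end Pool.Agent.MP_f74662_gt
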