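import Mathlib

-- part MP_f74662_gt.Basic
section

/-!
Subsets of the Cantor space, the embeddability quasi-order, and the operations
topological sum and one point limit.
-/

set_option autoImplicit false

open Set Filter Topology

namespace Pool.Agent.MP_f74662_gt

abbrev T : Type := ℕ → Bool

def root : T := fun _ => false

/-- the `n`-th cone map -/
def cn (n : ℕ) (y : T) : T := fun i => if i < n then false else if i = n then true else y (i - n - 1)

/-- left inverse of the cone map -/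
def dn (n : ℕ) (z : T) : T := fun i => z (i + n + 1)

lemma dn_cn (n : ℕ) (y : T) : dn n (cn n y) = y := by
  funext i
  have h1 : ¬ (i + n + 1 < n) := by omega
  have h2 : ¬ (i + n + 1 = n) := by omega
  have h3 : i + n + 1 - n - 1 = i := by omega
  simp [dn, cn, h1, h2, h3]

lemma cn_self (n : ℕ) (y : T) : cn n y n = true := by simp [cn]

lemma cn_lt {n i : ℕ} (y : T) (h : i < n) : cn n y i = false := by simp [cn, h]

lemma cn_ne_root (n : ℕ) (y : T) : cn n y ≠ root := by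
  intro h
  have := congrFun h n
  simp [cn_self, root] at this

lemma cn_inj_idx {n m : ℕ} {y y' : T} (h : cn n y = cn m y') : n = m := by
  rcases lt_trichotomy n m with h1 | h1 | h1
  · have := congrFun h n
    rw [cn_self, cn_lt _ h1] at this
    exact absurd this (by simp)
  · exact h1
  · have := congrFun h m
    rw [cn_self, cn_lt _ h1] at this
    exact absurd this (by simp)

lemma cn_injective (n : ℕ) : Function.Injective (cn n) :=
  Function.LeftInverse.injective (dn_cn n)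

lemma continuous_cn (n : ℕ) : Continuous (cn n) := by
  refine continuous_pi fun i => ?_
  unfold cn
  split_ifs
  · exact continuous_const
  · exact continuous_const
  · exact continuous_apply _

lemma continuous_dn (n : ℕ) : Continuous (dn n) :=
  continuous_pi fun _ => continuous_apply _

/-- the `n`-th cone -/
def cone (n : ℕ) : Set T := {z | (∀ i < n, z i = false) ∧ z n = true}

lemma cn_mem_cone (n : ℕ) (y : T) : cn n y ∈ cone n := ⟨fun _ h => cn_lt y h, cn_self n y⟩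

lemma cn_dn {n : ℕ} {z : T} (h : z ∈ cone n) : cn n (dn n z) = z := by
  funext i
  unfold cn dn
  split_ifs with h1 h2
  · exact (h.1 i h1).symm
  · subst h2; exact h.2.symm
  · congr 1; omega

lemma mem_cone_iff {n m : ℕ} {y : T} : cn m y ∈ cone n ↔ m = n := by
  constructor
  · intro h
    have := cn_dn h
    exact (cn_inj_idx this).symm
  · rintro rfl; exact cn_mem_cone _ _

lemma root_notMem_cone (n : ℕ) : root ∉ cone n := fun h => by
  have := h.2
  simp [root] at this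

/-- the `k`-th basic neighbourhood of the root -/
def tail (k : ℕ) : Set T := {z | ∀ i < k, z i = false}

lemma isClopen_coord (i : ℕ) (b : Bool) : IsClopen {z : T | z i = b} := by
  have : {z : T | z i = b} = (fun z : T => z i) ⁻¹' {b} := rfl
  rw [this]
  exact (isClopen_discrete _).preimage (continuous_apply i)

lemma isClopen_tail (k : ℕ) : IsClopen (tail k) := by
  have : tail k = ⋂ i ∈ Finset.range k, {z : T | z i = false} := by
    ext z; simp [tail]
  rw [this]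
  exact isClopen_biInter_finset fun i _ => isClopen_coord i false

lemma isClopen_cone (n : ℕ) : IsClopen (cone n) :=
  (isClopen_tail n).inter (isClopen_coord n true)

lemma root_mem_tail (k : ℕ) : root ∈ tail k := fun _ _ => rfl

lemma cn_mem_tail {n k : ℕ} {y : T} : cn n y ∈ tail k ↔ k ≤ n := by
  constructor
  · intro h
    by_contra hh
    have := h n (by omega)
    simp [cn_self] at this
  · intro h i hi
    exact cn_lt _ (by omega)

lemma tail_mem_nhds (k : ℕ) : tail k ∈ 𝓝 root :=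
  (isClopen_tail k).isOpen.mem_nhds (root_mem_tail k)

lemma exists_tail_subset {V : Set T} (hV : V ∈ 𝓝 root) : ∃ k, tail k ⊆ V := by
  rw [nhds_pi, Filter.mem_pi] at hV
  obtain ⟨I, hI, t, ht, hsub⟩ := hV
  obtain ⟨k, hk⟩ := hI.bddAbove
  refine ⟨k + 1, fun z hz => hsub fun i hi => ?_⟩
  have h1 : z i = false := hz i (Nat.lt_succ_of_le (hk hi))
  rw [h1]
  exact mem_of_mem_nhds (ht i)

lemma eq_root_or_cn (z : T) : z = root ∨ ∃ n y, z = cn n y := by
  by_cases h : z = root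
  · exact Or.inl h
  · right
    have : ∃ n, z n = true := by
      by_contra hh
      push Not at hh
      apply h
      funext i
      simpa [root] using hh i
    classical
    refine ⟨Nat.find this, dn _ z, (cn_dn ⟨fun i hi => ?_, Nat.find_spec this⟩).symm⟩
    simpa using Nat.find_min this hi

lemma isOpenMap_cn (n : ℕ) : IsOpenMap (cn n) := by
  intro U hU
  have : cn n '' U = cone n ∩ dn n ⁻¹' U := by
    ext z
    constructor
    · rintro ⟨y, hy, rfl⟩
      exact ⟨cn_mem_cone _ _, by simpa [dn_cn] using hy⟩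
    · rintro ⟨h1, h2⟩
      exact ⟨dn n z, h2, cn_dn h1⟩
  rw [this]
  exact (isClopen_cone n).isOpen.inter (hU.preimage (continuous_dn n))

/-- `f` restricted to `Z` is a topological embedding (tested on ultrafilters) -/
def EmbOn (f : T → T) (Z : Set T) : Prop :=
  ∀ z ∈ Z, ∀ U : Ultrafilter T, Z ∈ U →
    ((U : Filter T) ≤ 𝓝 z ↔ ((U.map f : Ultrafilter T) : Filter T) ≤ 𝓝 (f z))

/-- embeddability -/
def Le (A B : Set T) : Prop := ∃ f : T → T, MapsTo f A B ∧ EmbOn f A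

lemma EmbOn.mono {f : T → T} {Z A : Set T} (h : EmbOn f Z) (hA : A ⊆ Z) : EmbOn f A :=
  fun z hz U hU => h z (hA hz) U (mem_of_superset hU hA)

lemma embOn_id (Z : Set T) : EmbOn id Z := fun z _ U _ => by simp

lemma EmbOn.comp {f g : T → T} {A B : Set T} (hg : EmbOn g B) (hf : EmbOn f A)
    (hm : MapsTo f A B) : EmbOn (g ∘ f) A := by
  intro z hz U hU
  rw [hf z hz U hU, hg (f z) (hm hz) (U.map f)
    (Ultrafilter.mem_map.2 (mem_of_superset hU fun x hx => hm hx))]
  rfl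

lemma EmbOn.injOn {f : T → T} {Z : Set T} (h : EmbOn f Z) : InjOn f Z := by
  intro z hz z' hz' hzz
  have := (h z' hz' (pure z) (by simpa using hz)).2 (by
    rw [Ultrafilter.map_pure, hzz]; exact pure_le_nhds _)
  have h2 : z ⤳ z' := specializes_iff_pure.2 this
  exact h2.eq

lemma EmbOn.congr {f g : T → T} {Z : Set T} (h : EmbOn f Z) (hfg : EqOn f g Z) : EmbOn g Z := by
  intro z hz U hU
  rw [h z hz U hU, hfg hz]
  have : (U.map f : Ultrafilter T) = U.map g := by
    apply Ultrafilter.coe_injective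
    simp only [Ultrafilter.coe_map]
    exact map_congr (mem_of_superset hU fun x hx => hfg hx)
  rw [this]

lemma EmbOn.inv {f g : T → T} {Z : Set T} (h : EmbOn f Z) (hg : ∀ z ∈ Z, g (f z) = z) :
    EmbOn g (f '' Z) := by
  rintro _ ⟨z, hz, rfl⟩ U hU
  have h1 : Z ∈ U.map g := by
    refine Ultrafilter.mem_map.2 (mem_of_superset hU ?_)
    rintro _ ⟨w, hw, rfl⟩
    simpa [hg w hw] using hw
  rw [hg z hz, h z hz _ h1]
  have : ((U.map g).map f : Ultrafilter T) = U := by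
    apply Ultrafilter.coe_injective
    simp only [Ultrafilter.coe_map, map_map]
    have e : (f ∘ g) =ᶠ[(U : Filter T)] id := by
      refine mem_of_superset hU ?_
      rintro _ ⟨w, hw, rfl⟩
      simp [hg w hw]
    rw [Filter.map_congr e, Filter.map_id]
  rw [this]

lemma embOn_cn (n : ℕ) (Z : Set T) : EmbOn (cn n) Z := by
  intro z _ U _
  constructor
  · intro h
    exact ((continuous_cn n).tendsto z).mono_left h
  · intro h
    have h2 : Tendsto (cn n) (U : Filter T) (𝓝 (cn n z)) := h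
    have h3 := ((continuous_dn n).tendsto (cn n z)).comp h2
    rw [dn_cn] at h3
    have h4 : dn n ∘ cn n = id := funext (dn_cn n)
    rw [h4] at h3
    exact h3

lemma Le.refl (A : Set T) : Le A A := ⟨id, mapsTo_id _, embOn_id _⟩

lemma Le.trans {A B C : Set T} (h1 : Le A B) (h2 : Le B C) : Le A C := by
  obtain ⟨f, hf, hf'⟩ := h1
  obtain ⟨g, hg, hg'⟩ := h2
  exact ⟨g ∘ f, hg.comp hf, hg'.comp hf' hf⟩

lemma Le.of_subset {A B : Set T} (h : A ⊆ B) : Le A B := ⟨id, h, embOn_id _⟩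

lemma empty_le (A : Set T) : Le ∅ A := Le.of_subset (empty_subset _)

lemma Le.eq_empty {A : Set T} (h : Le A ∅) : A = ∅ := by
  obtain ⟨f, hf, -⟩ := h
  exact eq_empty_of_forall_notMem fun x hx => hf hx

lemma EmbOn.le_image {f : T → T} {Z : Set T} (h : EmbOn f Z) : Le Z (f '' Z) :=
  ⟨f, mapsTo_image _ _, h⟩

lemma EmbOn.image_le {f : T → T} {Z : Set T} (h : EmbOn f Z) : Le (f '' Z) Z := by
  classical
  have : Nonempty T := ⟨root⟩
  refine ⟨Function.invFunOn f Z, ?_, h.inv fun z hz => h.injOn.leftInvOn_invFunOn hz⟩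
  rintro _ ⟨z, hz, rfl⟩
  rw [h.injOn.leftInvOn_invFunOn hz]
  exact hz

lemma EmbOn.le_of {f : T → T} {Z A B : Set T} (h : EmbOn f Z) (hA : A ⊆ Z) (hB : MapsTo f A B) :
    Le A B := ⟨f, hB, h.mono hA⟩

lemma le_cn (n : ℕ) (A : Set T) : Le A (cn n '' A) := (embOn_cn n A).le_image

lemma cn_le (n : ℕ) (A : Set T) : Le (cn n '' A) A := (embOn_cn n A).image_le

/-- an embedded set is equivalent to a subset -/
lemma Le.exists_subset {A B : Set T} (h : Le A B) : ∃ Z, Z ⊆ B ∧ Le A Z ∧ Le Z A := by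
  obtain ⟨f, hf, hf'⟩ := h
  exact ⟨f '' A, hf.image_subset, hf'.le_image, hf'.image_le⟩

/-- continuity of an embedding at a point -/
lemma EmbOn.cont {f : T → T} {Z : Set T} (h : EmbOn f Z) {z : T} (hz : z ∈ Z) {V : Set T}
    (hV : V ∈ 𝓝 (f z)) : ∃ W ∈ 𝓝 z, ∀ w ∈ Z, w ∈ W → f w ∈ V := by
  have : f ⁻¹' V ∈ 𝓝[Z] z := by
    rw [mem_iff_ultrafilter]
    intro U hU
    have h1 : Z ∈ U := hU self_mem_nhdsWithin
    have h2 : (U : Filter T) ≤ 𝓝 z := hU.trans nhdsWithin_le_nhds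
    exact (h z hz U h1).1 h2 hV
  rw [mem_nhdsWithin_iff_exists_mem_nhds_inter] at this
  obtain ⟨W, hW, hsub⟩ := this
  exact ⟨W, hW, fun w hw hw' => hsub ⟨hw', hw⟩⟩

/-- continuity of the inverse of an embedding at a point -/
lemma EmbOn.cont_inv {f : T → T} {Z : Set T} (h : EmbOn f Z) {z : T} (hz : z ∈ Z) {W : Set T}
    (hW : W ∈ 𝓝 z) : ∃ V ∈ 𝓝 (f z), ∀ w ∈ Z, f w ∈ V → w ∈ W := by
  have : W ∈ comap f (𝓝 (f z)) ⊓ 𝓟 Z := by
    rw [mem_iff_ultrafilter]
    intro U hU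
    have h1 : Z ∈ U := (hU.trans inf_le_right) (mem_principal_self _)
    have h2 : (U : Filter T) ≤ comap f (𝓝 (f z)) := hU.trans inf_le_left
    exact (h z hz U h1).2 (map_le_iff_le_comap.2 h2) hW
  rw [mem_inf_principal, mem_comap] at this
  obtain ⟨V, hV, hsub⟩ := this
  exact ⟨V, hV, fun w hw hw' => hsub hw' hw⟩

lemma le_iff_isEmbedding {A B : Set T} : Le A B ↔ ∃ f : A → B, IsEmbedding f := by
  constructor
  · rintro ⟨f, hf, he⟩
    refine ⟨hf.restrict f A B, ?_, ?_⟩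
    · rw [isInducing_iff_nhds]
      rintro ⟨z, hz⟩
      apply le_antisymm
      · intro s hs
        rw [mem_comap] at hs
        obtain ⟨t, ht, hts⟩ := hs
        rw [nhds_subtype, mem_comap] at ht
        obtain ⟨V, hV, hVt⟩ := ht
        obtain ⟨W, hW, hWV⟩ := he.cont hz hV
        rw [nhds_subtype, mem_comap]
        exact ⟨W, hW, fun w hw => hts (hVt (hWV w.1 w.2 hw))⟩
      · intro s hs
        rw [nhds_subtype, mem_comap] at hs
        obtain ⟨W, hW, hWs⟩ := hs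
        obtain ⟨V, hV, hVW⟩ := he.cont_inv hz hW
        rw [mem_comap]
        refine ⟨Subtype.val ⁻¹' V, ?_, fun w hw => hWs (hVW w.1 w.2 hw)⟩
        rw [nhds_subtype, mem_comap]
        exact ⟨V, hV, subset_rfl⟩
    · intro x y hxy
      exact Subtype.ext (he.injOn x.2 y.2 (congrArg Subtype.val hxy))
  · rintro ⟨f, hf⟩
    classical
    refine ⟨fun z => if h : z ∈ A then (f ⟨z, h⟩).1 else root, fun z hz => ?_, ?_⟩
    · simp only [hz, dif_pos]
      exact (f _).2
    · intro z hz U hU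
      have hr : range (Subtype.val : A → T) ∈ U := by simpa using hU
      let U' : Ultrafilter A := U.comap Subtype.val_injective hr
      have hUU : (U : Filter T) = map Subtype.val (U' : Filter A) := by
        simp only [U', Ultrafilter.coe_comap]
        exact (map_comap_of_mem hr).symm
      have hind : IsInducing (Subtype.val ∘ f) := IsInducing.subtypeVal.comp hf.isInducing
      simp only [Ultrafilter.coe_map, hz, dif_pos]
      rw [hUU, map_map]
      have e1 : map Subtype.val (U' : Filter A) ≤ 𝓝 z ↔ (U' : Filter A) ≤ 𝓝 ⟨z, hz⟩ := by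
        rw [nhds_subtype, map_le_iff_le_comap]
      have e2 : ((fun z => if h : z ∈ A then (f ⟨z, h⟩).1 else root) ∘ Subtype.val)
          = (Subtype.val ∘ f : A → T) := by
        funext x
        simp [x.2]
      rw [e1, e2, hind.nhds_eq_comap, map_le_iff_le_comap]
      rfl

end Pool.Agent.MP_f74662_gt

end

-- part MP_f74662_gt.Ops
section

/-!
Sums and limits of subsets of the Cantor space.
-/

set_option autoImplicit false

open Set Filter Topology

namespace Pool.Agent.MP_f74662_gt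

/-- topological sum of the sets `Y n`, `n ∈ S` -/
def sigOn (S : Set ℕ) (Y : ℕ → Set T) : Set T := {z | ∃ n ∈ S, ∃ y ∈ Y n, z = cn n y}

def sig (Y : ℕ → Set T) : Set T := sigOn univ Y

/-- the sum of the `Y n` together with a limit point -/
def lim (Y : ℕ → Set T) : Set T := insert root (sig Y)

def add (A B : Set T) : Set T := sig fun n => if n = 0 then A else if n = 1 then B else ∅

def om (A : Set T) : Set T := sig fun _ => A

def L (A : Set T) : Set T := lim fun _ => A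

def sec (Z : Set T) (n : ℕ) : Set T := cn n ⁻¹' Z

lemma cn_mem_sigOn {S : Set ℕ} {Y : ℕ → Set T} {n : ℕ} {y : T} :
    cn n y ∈ sigOn S Y ↔ n ∈ S ∧ y ∈ Y n := by
  constructor
  · rintro ⟨m, hm, y', hy', h⟩
    obtain rfl := cn_inj_idx h
    obtain rfl := cn_injective _ h
    exact ⟨hm, hy'⟩
  · rintro ⟨h1, h2⟩
    exact ⟨n, h1, y, h2, rfl⟩

lemma root_notMem_sigOn {S : Set ℕ} {Y : ℕ → Set T} : root ∉ sigOn S Y := by
  rintro ⟨n, -, y, -, h⟩
  exact cn_ne_root n y h.symm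

lemma cn_mem_sig {Y : ℕ → Set T} {n : ℕ} {y : T} : cn n y ∈ sig Y ↔ y ∈ Y n := by
  simp [sig, cn_mem_sigOn]

lemma root_notMem_sig {Y : ℕ → Set T} : root ∉ sig Y := root_notMem_sigOn

lemma cn_mem_lim {Y : ℕ → Set T} {n : ℕ} {y : T} : cn n y ∈ lim Y ↔ y ∈ Y n := by
  simp [lim, cn_ne_root, cn_mem_sig]

lemma root_mem_lim {Y : ℕ → Set T} : root ∈ lim Y := mem_insert _ _

lemma sig_subset_lim {Y : ℕ → Set T} : sig Y ⊆ lim Y := subset_insert _ _

lemma sigOn_subset_sig {S : Set ℕ} {Y : ℕ → Set T} : sigOn S Y ⊆ sig Y := by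
  rintro _ ⟨n, -, y, hy, rfl⟩
  exact cn_mem_sig.2 hy

lemma sigOn_mono {S S' : Set ℕ} {Y Y' : ℕ → Set T} (h : ∀ n ∈ S, (Y n).Nonempty → n ∈ S')
    (h' : ∀ n ∈ S, Y n ⊆ Y' n) : sigOn S Y ⊆ sigOn S' Y' := by
  rintro _ ⟨n, hn, y, hy, rfl⟩
  exact cn_mem_sigOn.2 ⟨h n hn ⟨y, hy⟩, h' n hn hy⟩

lemma sig_mono_subset {Y Y' : ℕ → Set T} (h' : ∀ n, Y n ⊆ Y' n) : sig Y ⊆ sig Y' :=
  sigOn_mono (fun _ _ _ => trivial) fun n _ => h' n

lemma lim_mono_subset {Y Y' : ℕ → Set T} (h' : ∀ n, Y n ⊆ Y' n) : lim Y ⊆ lim Y' :=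
  insert_subset_insert (sig_mono_subset h')

lemma eq_sig_sec {Z : Set T} (h : root ∉ Z) : Z = sig (sec Z) := by
  ext z
  rcases eq_root_or_cn z with rfl | ⟨n, y, rfl⟩
  · simp [h, root_notMem_sig]
  · simp [cn_mem_sig, sec]

lemma eq_lim_sec {Z : Set T} (h : root ∈ Z) : Z = lim (sec Z) := by
  ext z
  rcases eq_root_or_cn z with rfl | ⟨n, y, rfl⟩
  · simp [h, root_mem_lim]
  · simp [cn_mem_lim, sec]

lemma sec_subset_of_lim {Z : Set T} {Y : ℕ → Set T} (h : Z ⊆ lim Y) (n : ℕ) : sec Z n ⊆ Y n :=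
  fun _ hy => cn_mem_lim.1 (h hy)

lemma sec_subset_of_sig {Z : Set T} {Y : ℕ → Set T} (h : Z ⊆ sig Y) (n : ℕ) : sec Z n ⊆ Y n :=
  fun _ hy => cn_mem_sig.1 (h hy)

lemma le_sigOn {S : Set ℕ} {Y : ℕ → Set T} {n : ℕ} (hn : n ∈ S) : Le (Y n) (sigOn S Y) :=
  (le_cn n _).trans (Le.of_subset (by
    rintro _ ⟨y, hy, rfl⟩
    exact cn_mem_sigOn.2 ⟨hn, hy⟩))

lemma le_sig {Y : ℕ → Set T} (n : ℕ) : Le (Y n) (sig Y) := le_sigOn (mem_univ n)

lemma le_lim {Y : ℕ → Set T} (n : ℕ) : Le (Y n) (lim Y) :=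
  (le_sig n).trans (Le.of_subset sig_subset_lim)

lemma le_om (A : Set T) : Le A (om A) := le_sig (Y := fun _ => A) 0

lemma om_le_L (A : Set T) : Le (om A) (L A) := Le.of_subset sig_subset_lim

lemma le_L (A : Set T) : Le A (L A) := (le_om A).trans (om_le_L A)

lemma le_add_l (A B : Set T) : Le A (add A B) := by
  exact le_sig (Y := fun n => if n = 0 then A else if n = 1 then B else ∅) 0

lemma le_add_r (A B : Set T) : Le B (add A B) := by
  exact le_sig (Y := fun n => if n = 0 then A else if n = 1 then B else ∅) 1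

/-- index of the cone containing a point -/
noncomputable def hd (z : T) : ℕ := by
  classical
  exact if h : ∃ n, z n = true then Nat.find h else 0

lemma hd_cn (n : ℕ) (y : T) : hd (cn n y) = n := by
  classical
  have h : ∃ m, cn n y m = true := ⟨n, cn_self n y⟩
  unfold hd
  rw [dif_pos h, Nat.find_eq_iff]
  exact ⟨cn_self n y, fun m hm => by simp [cn_lt y hm]⟩

/-- glued map -/
noncomputable def glued (t : T) (f : ℕ → T → T) (z : T) : T := by
  classical
  exact if z = root then t else f (hd z) (dn (hd z) z)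

lemma glued_root (t : T) (f : ℕ → T → T) : glued t f root = t := by simp [glued]

lemma glued_cn (t : T) (f : ℕ → T → T) (n : ℕ) (y : T) : glued t f (cn n y) = f n y := by
  simp [glued, cn_ne_root, hd_cn, dn_cn]

lemma embOn_dn (n : ℕ) (A : Set T) : EmbOn (dn n) (cn n '' A) :=
  (embOn_cn n A).inv fun z _ => dn_cn n z

lemma glued_embOn_piece {t : T} {f : ℕ → T → T} {Y : ℕ → Set T} {n : ℕ}
    (h : EmbOn (f n) (Y n)) : EmbOn (glued t f) (cn n '' Y n) := by
  have h1 : EmbOn (f n ∘ dn n) (cn n '' Y n) := h.comp (embOn_dn n _) (by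
    rintro _ ⟨y, hy, rfl⟩
    simpa [dn_cn] using hy)
  refine h1.congr ?_
  rintro _ ⟨y, hy, rfl⟩
  simp [glued_cn, dn_cn]

lemma glue_core {t : T} {f : ℕ → T → T} {Y U : ℕ → Set T} (hU : ∀ n, IsOpen (U n))
    (hd : Pairwise (Function.onFun Disjoint U)) (hm : ∀ n, MapsTo (f n) (Y n) (U n))
    (he : ∀ n, EmbOn (f n) (Y n)) {Z : Set T} (hZ : Z ⊆ lim Y) (ht : root ∈ Z → ∀ n, t ∉ U n)
    {n : ℕ} {y : T} (hy : cn n y ∈ Z) (V : Ultrafilter T) (hV : Z ∈ V) :
    ((V : Filter T) ≤ 𝓝 (cn n y) ↔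
      ((V.map (glued t f) : Ultrafilter T) : Filter T) ≤ 𝓝 (glued t f (cn n y))) := by
  have hy' : y ∈ Y n := cn_mem_lim.1 (hZ hy)
  have key := glued_embOn_piece (t := t) (he n) (cn n y) ⟨y, hy', rfl⟩ V
  constructor
  · intro h
    refine (key ?_).1 h
    have h1 : cone n ∈ V := h ((isClopen_cone n).isOpen.mem_nhds (cn_mem_cone n y))
    refine mem_of_superset (inter_mem hV h1) ?_
    rintro z ⟨hz, hz'⟩
    refine ⟨dn n z, ?_, cn_dn hz'⟩
    have := hZ hz
    rw [← cn_dn hz'] at this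
    exact cn_mem_lim.1 this
  · intro h
    refine (key ?_).2 h
    have h1 : U n ∈ 𝓝 (glued t f (cn n y)) := by
      rw [glued_cn]
      exact (hU n).mem_nhds (hm n hy')
    have h2 : glued t f ⁻¹' U n ∈ V := Ultrafilter.mem_map.1 (h h1)
    refine mem_of_superset (inter_mem hV h2) ?_
    rintro z ⟨hz, hz'⟩
    rcases eq_root_or_cn z with rfl | ⟨m, w, rfl⟩
    · exact absurd (by simpa [glued_root] using hz') (ht hz n)
    · have hw : w ∈ Y m := cn_mem_lim.1 (hZ hz)
      have h3 : f m w ∈ U n := by simpa [glued_cn] using hz'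
      by_cases hmn : m = n
      · subst hmn
        exact ⟨w, hw, rfl⟩
      · exact absurd h3 (Set.disjoint_left.1 (hd hmn) (hm m hw))

theorem glue_sig {Y U : ℕ → Set T} {Z' : Set T} (hU : ∀ n, IsOpen (U n))
    (hd : Pairwise (Function.onFun Disjoint U)) (h : ∀ n, Le (Y n) (Z' ∩ U n)) :
    Le (sig Y) Z' := by
  choose f hf he using h
  refine ⟨glued root f, ?_, ?_⟩
  · rintro _ ⟨n, -, y, hy, rfl⟩
    rw [glued_cn]
    exact (hf n hy).1
  · rintro _ ⟨n, -, y, hy, rfl⟩ V hV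
    exact glue_core hU hd (fun n y hy => (hf n hy).2) he sig_subset_lim
      (fun h => absurd h root_notMem_sig) (cn_mem_sig.2 hy) V hV

theorem glue_lim {Y U : ℕ → Set T} {Z' : Set T} {t : T} (hU : ∀ n, IsOpen (U n))
    (hd : Pairwise (Function.onFun Disjoint U)) (h : ∀ n, Le (Y n) (Z' ∩ U n))
    (ht : t ∈ Z') (h1 : ∀ n, (U n)ᶜ ∈ 𝓝 t) (h2 : ∀ V ∈ 𝓝 t, ∃ k, ∀ n, k ≤ n → U n ⊆ V) :
    Le (lim Y) Z' := by
  choose f hf he using h
  refine ⟨glued t f, ?_, ?_⟩
  · rintro z (rfl | ⟨n, -, y, hy, rfl⟩)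
    · rw [glued_root]; exact ht
    · rw [glued_cn]
      exact (hf n hy).1
  · rintro z (rfl | ⟨n, -, y, hy, rfl⟩) V hV
    · rw [glued_root]
      constructor
      · intro h W hW
        obtain ⟨k, hk⟩ := h2 W hW
        refine Ultrafilter.mem_map.2 (mem_of_superset (inter_mem hV (h (tail_mem_nhds k))) ?_)
        rintro z ⟨rfl | ⟨n, -, y, hy, rfl⟩, hz⟩
        · simpa [glued_root] using mem_of_mem_nhds hW
        · have := hk n (cn_mem_tail.1 hz) (hf n hy).2
          simpa [glued_cn] using this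
      · intro h W hW
        obtain ⟨k, hk⟩ := exists_tail_subset hW
        have h3 : (⋂ n ∈ Finset.range k, (U n)ᶜ) ∈ 𝓝 t :=
          (biInter_finset_mem _).2 fun n _ => h1 n
        have h4 := Ultrafilter.mem_map.1 (h h3)
        refine mem_of_superset (inter_mem hV h4) ?_
        rintro z ⟨rfl | ⟨n, -, y, hy, rfl⟩, hz⟩
        · exact mem_of_mem_nhds hW
        · apply hk
          rw [cn_mem_tail]
          by_contra hn
          simp only [mem_preimage, glued_cn, mem_iInter] at hz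
          exact hz n (Finset.mem_range.2 (by omega)) (hf n hy).2
    · exact glue_core hU hd (fun n y hy => (hf n hy).2) he subset_rfl
        (fun _ n => mem_of_mem_nhds (h1 n)) (cn_mem_lim.2 hy) V hV

theorem glue_add {A B Z' U V : Set T} (hU : IsOpen U) (hV : IsOpen V) (hd : Disjoint U V)
    (hA : Le A (Z' ∩ U)) (hB : Le B (Z' ∩ V)) : Le (add A B) Z' := by
  refine glue_sig (U := fun n => if n = 0 then U else if n = 1 then V else ∅) ?_ ?_ ?_
  · intro n
    split_ifs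
    exacts [hU, hV, isOpen_empty]
  · intro n m hnm
    simp only [Function.onFun]
    split_ifs <;> first | omega | exact hd | exact hd.symm | simp
  · intro n
    split_ifs
    exacts [hA, hB, empty_le _]

/-- a set embeds in the sum of its traces on a partition into open sets -/
theorem le_sig_of_cover {Z : Set T} {W : ℕ → Set T} (hW : ∀ n, IsOpen (W n))
    (hd : Pairwise (Function.onFun Disjoint W)) (hc : ∀ z ∈ Z, ∃ n, z ∈ W n) :
    Le Z (sig fun n => Z ∩ W n) := by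
  classical
  choose! i hi using hc
  have hiu : ∀ z ∈ Z, ∀ n, z ∈ W n → i z = n := by
    intro z hz n hn
    by_contra hne
    exact Set.disjoint_left.1 (hd hne) (hi z hz) hn
  refine ⟨fun z => cn (i z) z, fun z hz => cn_mem_sig.2 ⟨hz, hi z hz⟩, ?_⟩
  intro z hz V hV
  have key : EmbOn (fun z => cn (i z) z) (Z ∩ W (i z)) :=
    (embOn_cn (i z) _).congr fun w hw => by simp [hiu w hw.1 _ hw.2]
  have key2 := key z ⟨hz, hi z hz⟩ V
  constructor
  · intro h
    exact (key2 (inter_mem hV (h ((hW _).mem_nhds (hi z hz))))).1 h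
  · intro h
    refine (key2 ?_).2 h
    have h1 := Ultrafilter.mem_map.1
      (h ((isClopen_cone (i z)).isOpen.mem_nhds (cn_mem_cone (i z) z)))
    refine mem_of_superset (inter_mem hV h1) ?_
    rintro w ⟨hw, hw'⟩
    have : i w = i z := mem_cone_iff.1 hw'
    exact ⟨hw, this ▸ hi w hw⟩

theorem le_add_of_cover {Z U V A B : Set T} (hU : IsOpen U) (hV : IsOpen V) (hd : Disjoint U V)
    (hc : Z ⊆ U ∪ V) (hA : Le (Z ∩ U) A) (hB : Le (Z ∩ V) B) : Le Z (add A B) := by
  have h1 : Le Z (sig fun n => Z ∩ (if n = 0 then U else if n = 1 then V else ∅)) := by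
    refine le_sig_of_cover ?_ ?_ ?_
    · intro n
      split_ifs
      exacts [hU, hV, isOpen_empty]
    · intro n m hnm
      simp only [Function.onFun]
      split_ifs <;> first | omega | exact hd | exact hd.symm | simp
    · intro z hz
      rcases hc hz with h | h
      · exact ⟨0, by simpa using h⟩
      · exact ⟨1, by simpa using h⟩
  refine h1.trans (glue_sig (U := cone) (fun n => (isClopen_cone n).isOpen) ?_ ?_)
  · intro n m hnm
    refine Set.disjoint_left.2 fun z h1 h2 => hnm ?_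
    rw [← cn_dn h1] at h2
    exact mem_cone_iff.1 h2
  · intro n
    split_ifs with h0 h1
    · subst h0
      refine hA.trans ((le_cn 0 A).trans (Le.of_subset ?_))
      rintro _ ⟨y, hy, rfl⟩
      exact ⟨cn_mem_sig.2 (by simpa using hy), cn_mem_cone _ _⟩
    · subst h1
      refine hB.trans ((le_cn 1 B).trans (Le.of_subset ?_))
      rintro _ ⟨y, hy, rfl⟩
      exact ⟨cn_mem_sig.2 (by simpa using hy), cn_mem_cone _ _⟩
    · simpa using empty_le _

/-- union of the cones with index in `S` -/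
def cones (S : Set ℕ) : Set T := ⋃ n ∈ S, cone n

lemma isOpen_cones (S : Set ℕ) : IsOpen (cones S) :=
  isOpen_biUnion fun n _ => (isClopen_cone n).isOpen

lemma cn_mem_cones {S : Set ℕ} {n : ℕ} {y : T} : cn n y ∈ cones S ↔ n ∈ S := by
  simp [cones, mem_cone_iff]

lemma root_notMem_cones {S : Set ℕ} : root ∉ cones S := by
  simp [cones, root_notMem_cone]

lemma disjoint_cones {S S' : Set ℕ} (h : Disjoint S S') : Disjoint (cones S) (cones S') := by
  refine Set.disjoint_left.2 fun z h1 h2 => ?_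
  rcases eq_root_or_cn z with rfl | ⟨n, y, rfl⟩
  · exact root_notMem_cones h1
  · exact Set.disjoint_left.1 h (cn_mem_cones.1 h1) (cn_mem_cones.1 h2)

lemma pairwise_disjoint_cone : Pairwise (Function.onFun Disjoint cone) := by
  intro n m hnm
  refine Set.disjoint_left.2 fun z h1 h2 => hnm ?_
  rw [← cn_dn h1] at h2
  exact mem_cone_iff.1 h2

lemma le_sig_inter_cone {Y : ℕ → Set T} {S : Set ℕ} {n : ℕ} (hn : n ∈ S) :
    Le (Y n) (sigOn S Y ∩ cone n) := by
  refine (le_cn n _).trans (Le.of_subset ?_)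
  rintro _ ⟨y, hy, rfl⟩
  exact ⟨cn_mem_sigOn.2 ⟨hn, hy⟩, cn_mem_cone _ _⟩

lemma inter_cone_le {Z : Set T} (n : ℕ) : Le (Z ∩ cone n) (sec Z n) := by
  refine (Le.of_subset ?_).trans (cn_le n _)
  rintro z ⟨h1, h2⟩
  exact ⟨dn n z, by simpa [sec, cn_dn h2] using h1, cn_dn h2⟩

lemma lim_inter_cone_le {Y : ℕ → Set T} (n : ℕ) : Le (lim Y ∩ cone n) (Y n) :=
  (inter_cone_le n).trans (Le.of_subset (sec_subset_of_lim subset_rfl n))

theorem sig_mono {Y Y' : ℕ → Set T} (h : ∀ n, Le (Y n) (Y' n)) : Le (sig Y) (sig Y') :=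
  glue_sig (fun n => (isClopen_cone n).isOpen) pairwise_disjoint_cone
    fun n => (h n).trans (le_sig_inter_cone (mem_univ n))

theorem sigOn_eq_sig (S : Set ℕ) [DecidablePred (· ∈ S)] (Y : ℕ → Set T) :
    sigOn S Y = sig fun n => if n ∈ S then Y n else ∅ := by
  ext z
  rcases eq_root_or_cn z with rfl | ⟨n, y, rfl⟩
  · simp [root_notMem_sig, root_notMem_sigOn]
  · rw [cn_mem_sig, cn_mem_sigOn]
    split_ifs with h <;> simp [h]

theorem add_mono {A A' B B' : Set T} (hA : Le A A') (hB : Le B B') :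
    Le (add A B) (add A' B') := by
  refine sig_mono fun n => ?_
  split_ifs
  exacts [hA, hB, Le.refl _]

theorem om_mono {A A' : Set T} (h : Le A A') : Le (om A) (om A') := sig_mono fun _ => h

theorem add_comm_le (A B : Set T) : Le (add A B) (add B A) := by
  refine glue_add (isClopen_cone 1).isOpen (isClopen_cone 0).isOpen
    (pairwise_disjoint_cone (by norm_num)) ?_ ?_
  · exact le_sig_inter_cone (Y := fun n => if n = 0 then B else if n = 1 then A else ∅)
      (mem_univ 1)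
  · exact le_sig_inter_cone (Y := fun n => if n = 0 then B else if n = 1 then A else ∅)
      (mem_univ 0)

lemma cn0_mem_add {A B : Set T} {y : T} : cn 0 y ∈ add A B ↔ y ∈ A := by
  simp [add, cn_mem_sig]

lemma cn1_mem_add {A B : Set T} {y : T} : cn 1 y ∈ add A B ↔ y ∈ B := by
  simp [add, cn_mem_sig]

lemma mem_add_cases {A B : Set T} {z : T} (h : z ∈ add A B) :
    (∃ y ∈ A, z = cn 0 y) ∨ ∃ y ∈ B, z = cn 1 y := by
  obtain ⟨n, -, y, hy, rfl⟩ := h
  dsimp only at hy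
  split_ifs at hy with h0 h1
  · subst h0; exact Or.inl ⟨y, hy, rfl⟩
  · subst h1; exact Or.inr ⟨y, hy, rfl⟩
  · exact absurd hy (notMem_empty _)

theorem add_assoc_le (A B C : Set T) : Le (add (add A B) C) (add A (add B C)) := by
  have o1 : ∀ n, IsOpen (cn 1 '' cone n) := fun n => isOpenMap_cn 1 _ (isClopen_cone n).isOpen
  refine glue_add (U := cone 0 ∪ cn 1 '' cone 0) (V := cn 1 '' cone 1)
    ((isClopen_cone 0).isOpen.union (o1 0)) (o1 1) ?_ ?_ ?_
  · refine Set.disjoint_left.2 ?_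
    rintro _ (h | ⟨w, hw, hw'⟩) ⟨y, hy, rfl⟩
    · exact absurd (mem_cone_iff.1 h) (by norm_num)
    · obtain rfl := cn_injective _ hw'
      exact Set.disjoint_left.1 (pairwise_disjoint_cone (by norm_num : (0 : ℕ) ≠ 1)) hw hy
  · refine glue_add (isClopen_cone 0).isOpen (o1 0) ?_ ?_ ?_
    · refine Set.disjoint_left.2 ?_
      rintro _ h ⟨y, hy, rfl⟩
      exact absurd (mem_cone_iff.1 h) (by norm_num)
    · refine (le_cn 0 A).trans (Le.of_subset ?_)
      rintro _ ⟨y, hy, rfl⟩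
      exact ⟨⟨cn0_mem_add.2 hy, Or.inl (cn_mem_cone _ _)⟩, cn_mem_cone _ _⟩
    · refine ((le_cn 0 B).trans (le_cn 1 _)).trans (Le.of_subset ?_)
      rintro _ ⟨_, ⟨y, hy, rfl⟩, rfl⟩
      exact ⟨⟨cn1_mem_add.2 (cn0_mem_add.2 hy), Or.inr ⟨_, cn_mem_cone _ _, rfl⟩⟩,
        ⟨_, cn_mem_cone _ _, rfl⟩⟩
  · refine ((le_cn 1 C).trans (le_cn 1 _)).trans (Le.of_subset ?_)
    rintro _ ⟨_, ⟨y, hy, rfl⟩, rfl⟩
    exact ⟨cn1_mem_add.2 (cn1_mem_add.2 hy), ⟨_, cn_mem_cone _ _, rfl⟩⟩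

theorem add_assoc_ge (A B C : Set T) : Le (add A (add B C)) (add (add A B) C) :=
  (add_comm_le _ _).trans <| (add_mono (add_comm_le _ _) (Le.refl _)).trans <|
    (add_assoc_le C B A).trans <| (add_comm_le _ _).trans <|
      add_mono (add_comm_le _ _) (Le.refl _)

theorem add_left_comm_le (A B C : Set T) : Le (add A (add B C)) (add B (add A C)) :=
  (add_assoc_ge _ _ _).trans <| (add_mono (add_comm_le _ _) (Le.refl _)).trans <|
    add_assoc_le _ _ _

theorem add_empty_le (A : Set T) : Le (add A ∅) A := by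
  refine glue_add isOpen_univ isOpen_empty (by simp) (by simpa using Le.refl A) (empty_le _)

/-- subsets of a binary sum -/
theorem eq_add_of_subset {Z A B : Set T} (h : Z ⊆ add A B) :
    ∃ A' B', A' ⊆ A ∧ B' ⊆ B ∧ Z = add A' B' := by
  refine ⟨sec Z 0, sec Z 1, fun y hy => cn0_mem_add.1 (h hy), fun y hy => cn1_mem_add.1 (h hy), ?_⟩
  ext z
  constructor
  · intro hz
    rcases mem_add_cases (h hz) with ⟨y, -, rfl⟩ | ⟨y, -, rfl⟩
    · exact cn0_mem_add.2 hz
    · exact cn1_mem_add.2 hz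
  · intro hz
    rcases mem_add_cases hz with ⟨y, hy, rfl⟩ | ⟨y, hy, rfl⟩
    · exact hy
    · exact hy

theorem sigOn_le_add {S S1 S2 : Set ℕ} {Y : ℕ → Set T} (h : S ⊆ S1 ∪ S2) :
    Le (sigOn S Y) (add (sigOn S1 Y) (sigOn S2 Y)) := by
  refine le_add_of_cover (isOpen_cones S1) (isOpen_cones S1ᶜ) (disjoint_cones disjoint_compl_right)
    ?_ (Le.of_subset ?_) (Le.of_subset ?_)
  · rintro _ ⟨n, hn, y, hy, rfl⟩
    by_cases h1 : n ∈ S1
    · exact Or.inl (cn_mem_cones.2 h1)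
    · exact Or.inr (cn_mem_cones.2 h1)
  · rintro _ ⟨⟨n, hn, y, hy, rfl⟩, h1⟩
    exact cn_mem_sigOn.2 ⟨cn_mem_cones.1 h1, hy⟩
  · rintro _ ⟨⟨n, hn, y, hy, rfl⟩, h1⟩
    exact cn_mem_sigOn.2 ⟨(h hn).resolve_left (cn_mem_cones.1 h1), hy⟩

lemma sigOn_subset_inter {S S' : Set ℕ} {Y : ℕ → Set T} (h : S' ⊆ S) :
    sigOn S' Y ⊆ sigOn S Y ∩ cones S' := by
  rintro _ ⟨n, hn, y, hy, rfl⟩
  exact ⟨cn_mem_sigOn.2 ⟨h hn, hy⟩, cn_mem_cones.2 hn⟩

theorem add_le_sigOn {S S1 S2 : Set ℕ} {Y : ℕ → Set T} (h1 : S1 ⊆ S) (h2 : S2 ⊆ S)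
    (hd : Disjoint S1 S2) : Le (add (sigOn S1 Y) (sigOn S2 Y)) (sigOn S Y) :=
  glue_add (isOpen_cones S1) (isOpen_cones S2) (disjoint_cones hd)
    (Le.of_subset (sigOn_subset_inter h1)) (Le.of_subset (sigOn_subset_inter h2))

theorem sigOn_singleton_le (Y : ℕ → Set T) (n : ℕ) : Le (sigOn {n} Y) (Y n) := by
  refine (Le.of_subset ?_).trans (cn_le n _)
  rintro _ ⟨m, rfl, y, hy, rfl⟩
  exact ⟨y, hy, rfl⟩

theorem sigOn_empty (Y : ℕ → Set T) : sigOn ∅ Y = ∅ := by
  ext z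
  simp [sigOn]

/-- sum of sums -/
theorem sig_sig_le (Y : ℕ → ℕ → Set T) :
    Le (sig fun n => sig (Y n)) (sig fun k => Y (Nat.unpair k).1 (Nat.unpair k).2) := by
  refine glue_sig (U := fun n => cones {k | (Nat.unpair k).1 = n}) (fun n => isOpen_cones _) ?_ ?_
  · intro n m hnm
    refine disjoint_cones (Set.disjoint_left.2 fun k h1 h2 => hnm ?_)
    exact (h1 : _ = n).symm.trans h2
  · intro n
    refine glue_sig (U := fun m => cone (Nat.pair n m)) (fun m => (isClopen_cone _).isOpen) ?_ ?_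
    · intro m m' hm
      refine pairwise_disjoint_cone fun h => hm ?_
      exact (Nat.pair_eq_pair.1 h).2
    · intro m
      refine (le_cn (Nat.pair n m) _).trans (Le.of_subset ?_)
      rintro _ ⟨y, hy, rfl⟩
      exact ⟨⟨cn_mem_sig.2 (by simpa using hy), cn_mem_cones.2 (by simp)⟩, cn_mem_cone _ _⟩

theorem le_sig_sig (Y : ℕ → ℕ → Set T) :
    Le (sig fun k => Y (Nat.unpair k).1 (Nat.unpair k).2) (sig fun n => sig (Y n)) := by
  refine glue_sig (U := fun k => cn (Nat.unpair k).1 '' cone (Nat.unpair k).2)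
    (fun k => isOpenMap_cn _ _ (isClopen_cone _).isOpen) ?_ ?_
  · intro k k' hk
    refine Set.disjoint_left.2 ?_
    rintro _ ⟨y, hy, rfl⟩ ⟨y', hy', h⟩
    have h1 := cn_inj_idx h
    rw [h1] at h
    obtain rfl := cn_injective _ h
    have h2 : (Nat.unpair k').2 = (Nat.unpair k).2 := by
      by_contra hne
      exact Set.disjoint_left.1 (pairwise_disjoint_cone hne) hy' hy
    apply hk
    rw [← Nat.pair_unpair k, ← Nat.pair_unpair k', h1, h2]
  · intro k
    refine ((le_cn (Nat.unpair k).2 _).trans (le_cn (Nat.unpair k).1 _)).trans (Le.of_subset ?_)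
    rintro _ ⟨_, ⟨y, hy, rfl⟩, rfl⟩
    exact ⟨cn_mem_sig.2 (cn_mem_sig.2 hy), _, cn_mem_cone _ _, rfl⟩

/-- block decomposition used to embed sums and limits -/
lemma exists_blocks {Y Y' : ℕ → Set T} (h : ∀ n k, ∃ l, Le (Y n) (sigOn (Ico k l) Y')) (k0 : ℕ) :
    ∃ a : ℕ → ℕ, StrictMono a ∧ k0 ≤ a 0 ∧ ∀ n, Le (Y n) (sigOn (Ico (a n) (a (n + 1))) Y') := by
  choose l hl using h
  let a : ℕ → ℕ := fun n => Nat.rec k0 (fun n ih => max (l n ih) (ih + 1)) n
  have ha : ∀ n, a (n + 1) = max (l n (a n)) (a n + 1) := fun n => rfl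
  refine ⟨a, strictMono_nat_of_lt_succ fun n => ?_, le_rfl, fun n => ?_⟩
  · rw [ha]; omega
  · refine (hl n (a n)).trans (Le.of_subset (sigOn_mono (fun m hm _ => ?_) fun _ _ => subset_rfl))
    refine ⟨hm.1, lt_of_lt_of_le hm.2 ?_⟩
    rw [ha]; exact le_max_left _ _

lemma blocks_disjoint {a : ℕ → ℕ} (ha : StrictMono a) :
    Pairwise (Function.onFun Disjoint fun n => cones (Ico (a n) (a (n + 1)))) := by
  intro n m hnm
  refine disjoint_cones (Set.disjoint_left.2 fun k h1 h2 => ?_)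
  rcases lt_or_gt_of_ne hnm with h | h
  · have := ha.monotone (Nat.succ_le_of_lt h)
    have := h1.2
    have := h2.1
    simp only [Nat.succ_eq_add_one] at *
    omega
  · have := ha.monotone (Nat.succ_le_of_lt h)
    have := h2.2
    have := h1.1
    simp only [Nat.succ_eq_add_one] at *
    omega

theorem sig_le_of_blocks {Y Y' : ℕ → Set T} (h : ∀ n k, ∃ l, Le (Y n) (sigOn (Ico k l) Y')) :
    Le (sig Y) (sig Y') := by
  obtain ⟨a, ha, -, hY⟩ := exists_blocks h 0
  exact glue_sig (fun n => isOpen_cones _) (blocks_disjoint ha) fun n =>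
    (hY n).trans (Le.of_subset (sigOn_subset_inter (subset_univ _)))

theorem lim_le_of_blocks {Y Y' : ℕ → Set T} (h : ∀ n k, ∃ l, Le (Y n) (sigOn (Ico k l) Y'))
    (k0 : ℕ) : Le (lim Y) (lim Y' ∩ tail k0) := by
  obtain ⟨a, ha, h0, hY⟩ := exists_blocks h k0
  refine glue_lim (t := root) (fun n => isOpen_cones _) (blocks_disjoint ha) (fun n => ?_)
    ⟨root_mem_lim, root_mem_tail _⟩ (fun n => ?_) fun V hV => ?_
  · refine (hY n).trans (Le.of_subset ?_)
    rintro _ ⟨m, hm, y, hy, rfl⟩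
    refine ⟨⟨cn_mem_lim.2 hy, cn_mem_tail.2 ?_⟩, cn_mem_cones.2 hm⟩
    exact h0.trans ((ha.monotone (Nat.zero_le n)).trans hm.1)
  · refine mem_of_superset (tail_mem_nhds (a (n + 1))) fun z hz hz' => ?_
    rcases eq_root_or_cn z with rfl | ⟨m, y, rfl⟩
    · exact root_notMem_cones hz'
    · exact absurd (cn_mem_cones.1 hz').2 (not_lt.2 (cn_mem_tail.1 hz))
  · obtain ⟨k, hk⟩ := exists_tail_subset hV
    refine ⟨k, fun n hn z hz => hk ?_⟩
    rcases eq_root_or_cn z with rfl | ⟨m, y, rfl⟩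
    · exact root_mem_tail _
    · exact cn_mem_tail.2 (hn.trans ((ha.id_le n).trans (cn_mem_cones.1 hz).1))

/-- splitting a limit into a finite part and a tail -/
theorem lim_le_add_tail (Y : ℕ → Set T) (k : ℕ) :
    Le (lim Y) (add (lim Y ∩ tail k) (sigOn (Iio k) Y)) := by
  refine le_add_of_cover (isClopen_tail k).isOpen (isClopen_tail k).compl.isOpen
    disjoint_compl_right (by simp) (Le.refl _) (Le.of_subset ?_)
  rintro z ⟨rfl | ⟨n, -, y, hy, rfl⟩, hz⟩
  · exact absurd (root_mem_tail k) hz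
  · exact cn_mem_sigOn.2 ⟨not_le.1 fun h => hz (cn_mem_tail.2 h), hy⟩

theorem add_tail_le_lim (Y : ℕ → Set T) (k : ℕ) :
    Le (add (lim Y ∩ tail k) (sigOn (Iio k) Y)) (lim Y) := by
  refine glue_add (isClopen_tail k).isOpen (isClopen_tail k).compl.isOpen
    disjoint_compl_right (Le.refl _) (Le.of_subset ?_)
  rintro _ ⟨n, hn, y, hy, rfl⟩
  exact ⟨cn_mem_lim.2 hy, fun h => absurd (cn_mem_tail.1 h) (not_le.2 hn)⟩

end Pool.Agent.MP_f74662_gt

end

-- part MP_f74662_gt.Germ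
section

/-!
Ideals, germs and atoms.
-/

set_option autoImplicit false

open Set Filter Topology

namespace Pool.Agent.MP_f74662_gt

/-- `Idl Y Z`: the set `Z` embeds in a finite sum of copies of `Y` -/
def Idl (Y Z : Set T) : Prop :=
  ∀ I : Set T → Prop, I Y → (∀ A B, I A → I B → I (add A B)) → (∀ A B, Le A B → I B → I A) → I Z

lemma Idl.self (Y : Set T) : Idl Y Y := fun _ h _ _ => h

lemma Idl.add {Y A B : Set T} (hA : Idl Y A) (hB : Idl Y B) : Idl Y (add A B) :=
  fun I h1 h2 h3 => h2 _ _ (hA I h1 h2 h3) (hB I h1 h2 h3)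

lemma Idl.of_le {Y A B : Set T} (h : Le A B) (hB : Idl Y B) : Idl Y A :=
  fun I h1 h2 h3 => h3 _ _ h (hB I h1 h2 h3)

lemma Le.idl {Y A : Set T} (h : Le A Y) : Idl Y A := Idl.of_le h (Idl.self Y)

lemma idl_empty (Y : Set T) : Idl Y ∅ := (empty_le Y).idl

lemma Idl.trans {X Y Z : Set T} (h1 : Idl Y Z) (h2 : Idl X Y) : Idl X Z :=
  h1 (Idl X) h2 (fun _ _ => Idl.add) fun _ _ => Idl.of_le

lemma idl_sigOn_finite {Y : Set T} {W : ℕ → Set T} {S : Set ℕ} (hS : S.Finite)
    (h : ∀ n ∈ S, Idl Y (W n)) : Idl Y (sigOn S W) := by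
  induction S, hS using Set.Finite.induction_on with
  | empty => rw [sigOn_empty]; exact idl_empty Y
  | @insert a s _ _ ih =>
    refine Idl.of_le (sigOn_le_add (S1 := {a}) (S2 := s) (by simp)) (Idl.add ?_ (ih ?_))
    · exact Idl.of_le (sigOn_singleton_le W a) (h a (mem_insert _ _))
    · exact fun n hn => h n (mem_insert_of_mem _ hn)

/-- the property of embedding in finite blocks arbitrarily far out -/
def Far (W : ℕ → Set T) (Z : Set T) : Prop := ∀ k, ∃ l, Le Z (sigOn (Ico k l) W)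

lemma Far.add {W : ℕ → Set T} {A B : Set T} (hA : Far W A) (hB : Far W B) : Far W (add A B) := by
  intro k
  obtain ⟨l, hl⟩ := hA k
  obtain ⟨l', hl'⟩ := hB (max k l)
  refine ⟨max l l', (add_mono hl hl').trans (add_le_sigOn ?_ ?_ ?_)⟩
  · intro m hm
    exact ⟨hm.1, lt_of_lt_of_le hm.2 (le_max_left _ _)⟩
  · intro m hm
    exact ⟨(le_max_left _ _).trans hm.1, lt_of_lt_of_le hm.2 (le_max_right _ _)⟩
  · refine Set.disjoint_left.2 fun m h1 h2 => ?_
    have := h1.2
    have := (le_max_right _ _).trans h2.1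
    omega

lemma Far.of_le {W : ℕ → Set T} {A B : Set T} (h : Le A B) (hB : Far W B) : Far W A :=
  fun k => (hB k).imp fun _ hl => h.trans hl

lemma far_of_frequently {W : ℕ → Set T} {A : Set T} (h : ∀ k, ∃ m, k ≤ m ∧ Le A (W m)) :
    Far W A := by
  intro k
  obtain ⟨m, hm, hA⟩ := h k
  exact ⟨m + 1, hA.trans (le_sigOn ⟨hm, Nat.lt_succ_self m⟩)⟩

lemma Idl.far {W : ℕ → Set T} {Y Z : Set T} (h : Idl Y Z) (hY : Far W Y) : Far W Z :=
  h (Far W) hY (fun _ _ => Far.add) fun _ _ => Far.of_le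

lemma far_const (Y : Set T) : Far (fun _ => Y) Y :=
  far_of_frequently fun k => ⟨k, le_rfl, Le.refl _⟩

lemma Idl.le_om {Y Z : Set T} (h : Idl Y Z) : Le Z (om Y) := by
  obtain ⟨l, hl⟩ := h.far (far_const Y) 0
  exact hl.trans (Le.of_subset sigOn_subset_sig)

lemma L_le_lim_tail {Y : Set T} {W : ℕ → Set T} (h : Far W Y) (k : ℕ) :
    Le (L Y) (lim W ∩ tail k) := lim_le_of_blocks (fun _ => h) k

lemma L_le_lim {Y : Set T} {W : ℕ → Set T} (h : Far W Y) : Le (L Y) (lim W) :=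
  (L_le_lim_tail h 0).trans (Le.of_subset inter_subset_left)

lemma L_le_tail (Y : Set T) (k : ℕ) : Le (L Y) (L Y ∩ tail k) := L_le_lim_tail (far_const Y) k

lemma lim_le_L {Y : Set T} {W : ℕ → Set T} (h : ∀ n, Idl Y (W n)) : Le (lim W) (L Y) :=
  (lim_le_of_blocks (fun n => (h n).far (far_const Y)) 0).trans (Le.of_subset inter_subset_left)

lemma sig_le_om {Y : Set T} {W : ℕ → Set T} (h : ∀ n, Idl Y (W n)) : Le (sig W) (om Y) :=
  sig_le_of_blocks fun n => (h n).far (far_const Y)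

lemma om_le_sig {Y : Set T} {W : ℕ → Set T} (h : Far W Y) : Le (om Y) (sig W) :=
  sig_le_of_blocks fun _ => h

lemma L_mono_idl {Y Y' : Set T} (h : Idl Y' Y) : Le (L Y) (L Y') := lim_le_L fun _ => h

lemma L_mono {Y Y' : Set T} (h : Le Y Y') : Le (L Y) (L Y') := L_mono_idl h.idl

lemma om_mono_idl {Y Y' : Set T} (h : Idl Y' Y) : Le (om Y) (om Y') := sig_le_om fun _ => h

/-- a germ absorbs its ideal -/
lemma add_L_le {Y V : Set T} (h : Idl Y V) : Le (add (L Y) V) (L Y) := by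
  obtain ⟨l, hl⟩ := h.far (far_const Y) 0
  refine (add_mono (L_le_tail Y l) (hl.trans (Le.of_subset ?_))).trans (add_tail_le_lim _ l)
  exact sigOn_mono (fun n hn _ => hn.2) fun _ _ => subset_rfl

lemma om_om_le (Y : Set T) : Le (om (om Y)) (om Y) := sig_sig_le fun _ _ => Y

lemma add_le_om {Y A B : Set T} (hA : Le A (om Y)) (hB : Le B (om Y)) : Le (add A B) (om Y) :=
  ((Idl.add hA.idl hB.idl).le_om).trans (om_om_le Y)

/-- localisation of an embedding of a germ -/
lemma germ_local {Y X : Set T} {f : T → T} (hm : MapsTo f (L Y) X) (he : EmbOn f (L Y))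
    {W : Set T} (hW : W ∈ 𝓝 (f root)) : Le (L Y) (X ∩ W) := by
  obtain ⟨V, hV, hVW⟩ := he.cont root_mem_lim hW
  obtain ⟨k, hk⟩ := exists_tail_subset hV
  exact (L_le_tail Y k).trans (he.le_of inter_subset_left
    fun z hz => ⟨hm hz.1, hVW z hz.1 (hk hz.2)⟩)

lemma cone_mem_nhds (n : ℕ) (y : T) : cone n ∈ 𝓝 (cn n y) :=
  (isClopen_cone n).isOpen.mem_nhds (cn_mem_cone n y)

theorem L_le_lim_cases {Y : Set T} {W : ℕ → Set T} (h : Le (L Y) (lim W)) :
    (∃ m, Le (L Y) (W m)) ∨ Far W Y := by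
  obtain ⟨f, hm, he⟩ := h
  rcases eq_root_or_cn (f root) with h0 | ⟨n, y, h0⟩
  · right
    intro k
    obtain ⟨V, hV, hVW⟩ := he.cont root_mem_lim (h0 ▸ tail_mem_nhds k)
    obtain ⟨j, hj⟩ := exists_tail_subset hV
    obtain ⟨V', hV', hV'W⟩ := he.cont_inv root_mem_lim (tail_mem_nhds (j + 1))
    obtain ⟨l, hl⟩ := exists_tail_subset (h0 ▸ hV')
    refine ⟨l, (le_cn j Y).trans (he.le_of ?_ ?_)⟩
    · rintro _ ⟨y, hy, rfl⟩
      exact cn_mem_lim.2 hy
    · rintro _ ⟨y, hy, rfl⟩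
      have h1 : cn j y ∈ L Y := cn_mem_lim.2 hy
      have h2 : f (cn j y) ∈ tail k := hVW _ h1 (hj (cn_mem_tail.2 le_rfl))
      have h3 : f (cn j y) ∉ tail l := fun h =>
        absurd (cn_mem_tail.1 (hV'W _ h1 (hl h))) (by omega)
      rcases hm h1 with h4 | ⟨m, -, w, hw, h4⟩
      · exact absurd (h4 ▸ root_mem_tail l) h3
      · rw [h4] at h2 h3 ⊢
        exact cn_mem_sigOn.2 ⟨⟨cn_mem_tail.1 h2, not_le.1 fun h => h3 (cn_mem_tail.2 h)⟩, hw⟩
  · left
    exact ⟨n, (germ_local hm he (h0 ▸ cone_mem_nhds n y)).trans (lim_inter_cone_le n)⟩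

theorem L_le_sig_cases {Y : Set T} {W : ℕ → Set T} (h : Le (L Y) (sig W)) :
    ∃ m, Le (L Y) (W m) := by
  obtain ⟨f, hm, he⟩ := h
  obtain ⟨n, -, y, -, h0⟩ := hm root_mem_lim
  exact ⟨n, (germ_local hm he (h0 ▸ cone_mem_nhds n y)).trans
    ((Le.of_subset (inter_subset_inter_left _ sig_subset_lim)).trans (lim_inter_cone_le n))⟩

lemma not_L_le_empty (Y : Set T) : ¬ Le (L Y) ∅ := fun h => by
  have h1 := h.eq_empty
  have h2 : root ∈ L Y := root_mem_lim
  rw [h1] at h2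
  exact h2

theorem om_L_le_lim_cases {Y : Set T} {W : ℕ → Set T} (h : Le (om (L Y)) (lim W)) :
    (∃ m, Le (om (L Y)) (W m)) ∨ ∀ k, ∃ m, k ≤ m ∧ Le (L Y) (W m) := by
  obtain ⟨f, hm, he⟩ := h
  have hmem : ∀ i, ∀ y ∈ L Y, cn i y ∈ om (L Y) := fun i y hy => cn_mem_sig.2 hy
  have hei : ∀ i, EmbOn (f ∘ cn i) (L Y) := fun i => he.comp (embOn_cn i _) (hmem i)
  -- local statement
  have hloc : ∀ i m, f (cn i root) ∈ cone m → Le (L Y) (sec (om (L Y) ∩ f ⁻¹' cone m) i) := by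
    intro i m hi
    obtain ⟨V, hV, hVW⟩ := (hei i).cont root_mem_lim ((isClopen_cone m).isOpen.mem_nhds hi)
    obtain ⟨k, hk⟩ := exists_tail_subset hV
    refine (L_le_tail Y k).trans (Le.of_subset fun z hz => ⟨hmem i z hz.1, hVW z hz.1 (hk hz.2)⟩)
  have hfin : ∀ m, Le (om (L Y) ∩ f ⁻¹' cone m) (W m) := fun m =>
    (he.le_of (B := lim W ∩ cone m) inter_subset_left fun z hz => ⟨hm hz.1, hz.2⟩).trans
      (lim_inter_cone_le m)
  by_cases hc : ∃ m, ∀ k, ∃ i, k ≤ i ∧ f (cn i root) ∈ cone m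
  · left
    obtain ⟨m, hm'⟩ := hc
    refine ⟨m, Le.trans ?_ (hfin m)⟩
    rw [eq_sig_sec (Z := om (L Y) ∩ f ⁻¹' cone m) fun h => root_notMem_sig h.1]
    refine om_le_sig (far_of_frequently fun k => ?_)
    obtain ⟨i, hi, hi'⟩ := hm' k
    exact ⟨i, hi, hloc i m hi'⟩
  · right
    push Not at hc
    choose b hb using hc
    intro k
    obtain ⟨B, hB⟩ : ∃ B, ∀ m < k, b m ≤ B := by
      obtain ⟨B, hB⟩ := ((Set.finite_lt_nat k).image b).bddAbove
      exact ⟨B, fun m hm => hB ⟨m, hm, rfl⟩⟩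
    have : ∃ i, B ≤ i ∧ f (cn i root) ≠ root := by
      by_contra hh
      push Not at hh
      have h1 := hh B le_rfl
      have h2 := hh (B + 1) (Nat.le_succ B)
      have := he.injOn (hmem _ _ root_mem_lim) (hmem _ _ root_mem_lim) (h1.trans h2.symm)
      exact absurd (cn_inj_idx this) (by omega)
    obtain ⟨i, hi, hne⟩ := this
    rcases eq_root_or_cn (f (cn i root)) with h0 | ⟨m, y, h0⟩
    · exact absurd h0 hne
    · have hc : f (cn i root) ∈ cone m := h0 ▸ cn_mem_cone m y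
      refine ⟨m, ?_, ?_⟩
      · by_contra hlt
        exact hb m i ((hB m (by omega)).trans hi) hc
      · refine (hloc i m hc).trans (Le.trans ?_ (hfin m))
        exact (le_cn i _).trans (Le.of_subset (image_preimage_subset _ _))

/-- a set that is nonempty and indecomposable for finite sums -/
def Atom (a : Set T) : Prop := ¬ Le a ∅ ∧ ∀ A B, Le a (add A B) → Le a A ∨ Le a B

lemma atom_L (Y : Set T) : Atom (L Y) := by
  refine ⟨not_L_le_empty Y, fun A B h => ?_⟩
  obtain ⟨m, hm⟩ := L_le_sig_cases h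
  split_ifs at hm
  · exact Or.inl hm
  · exact Or.inr hm
  · exact absurd hm (not_L_le_empty Y)

lemma atom_om_L (Y : Set T) : Atom (om (L Y)) := by
  refine ⟨fun h => not_L_le_empty Y ((le_om _).trans h), fun A B h => ?_⟩
  rcases om_L_le_lim_cases (h.trans (Le.of_subset sig_subset_lim)) with ⟨m, hm⟩ | h2
  · split_ifs at hm
    · exact Or.inl hm
    · exact Or.inr hm
    · exact absurd ((le_om _).trans hm) (not_L_le_empty Y)
  · obtain ⟨m, hm, h3⟩ := h2 2
    rw [if_neg (by omega), if_neg (by omega)] at h3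
    exact absurd h3 (not_L_le_empty Y)

lemma Atom.le_of_idl {a Y Z : Set T} (ha : Atom a) (h : Idl Y Z) (h2 : Le a Z) : Le a Y :=
  h (fun X => Le a X → Le a Y) id
    (fun A B hA hB hAB => (ha.2 A B hAB).elim hA hB) (fun _ _ hAB hB hA => hB (hA.trans hAB)) h2

lemma Atom.le_of_idl' {a Y : Set T} (ha : Atom a) (h : Idl Y a) : Le a Y :=
  ha.le_of_idl h (Le.refl _)

lemma Far.idl {Y Z : Set T} {W : ℕ → Set T} (h : Far W Z) (hW : ∀ n, Idl Y (W n)) : Idl Y Z := by
  obtain ⟨l, hl⟩ := h 0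
  exact Idl.of_le hl (idl_sigOn_finite (finite_Ico 0 l) fun n _ => hW n)

theorem idl_of_L_le_L {a b : Set T} (h : Le (L a) (L b)) : Idl b a := by
  rcases L_le_lim_cases h with ⟨_, h1⟩ | h1
  · exact ((le_L a).trans h1).idl
  · exact h1.idl fun _ => Idl.self b

theorem le_of_L_le_om {a b : Set T} (h : Le (L a) (om b)) : Le (L a) b := by
  obtain ⟨_, h1⟩ := L_le_sig_cases h
  exact h1

theorem le_of_om_le_L {a b : Set T} (h : Le (om (L a)) (L b)) : Le (L a) b := by
  rcases om_L_le_lim_cases h with ⟨_, h1⟩ | h1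
  · exact (le_om _).trans h1
  · obtain ⟨_, _, h2⟩ := h1 0
    exact h2

/-- cancellation: the top point of the germ has to go to the limit point -/
theorem cancel {Y V R : Set T} {W : ℕ → Set T} (h : Le (add (L Y) V) (add (lim W) R))
    (h1 : ∀ m, ¬ Le (L Y) (W m)) (h2 : ¬ Le (L Y) R) :
    ∃ l, Le V (add (sigOn (Iio l) W) R) := by
  obtain ⟨f, hm, he⟩ := h
  have hm0 : MapsTo (cn 0) (L Y) (add (L Y) V) := fun y hy => cn0_mem_add.2 hy
  have he0 : EmbOn (f ∘ cn 0) (L Y) := he.comp (embOn_cn 0 _) hm0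
  have hr : cn 0 root ∈ add (L Y) V := hm0 root_mem_lim
  have h0 : f (cn 0 root) = cn 0 root := by
    rcases mem_add_cases (hm hr) with ⟨y, hy, h0⟩ | ⟨y, hy, h0⟩
    · rcases hy with rfl | ⟨m, -, w, hw, rfl⟩
      · exact h0
      · exfalso
        apply h1 m
        have hn : cn 0 '' cone m ∈ 𝓝 ((f ∘ cn 0) root) := by
          refine (isOpenMap_cn 0 _ (isClopen_cone m).isOpen).mem_nhds ?_
          exact ⟨_, cn_mem_cone m w, h0.symm⟩
        refine (germ_local (hm.comp hm0) he0 hn).trans ?_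
        refine (Le.of_subset ?_).trans ((cn_le 0 _).trans (lim_inter_cone_le (Y := W) m))
        rintro _ ⟨h3, z, hz, rfl⟩
        exact ⟨z, ⟨cn0_mem_add.1 h3, hz⟩, rfl⟩
    · exfalso
      apply h2
      have hn : cone 1 ∈ 𝓝 ((f ∘ cn 0) root) := by
        show cone 1 ∈ 𝓝 (f (cn 0 root))
        rw [h0]; exact cone_mem_nhds 1 y
      refine (germ_local (hm.comp hm0) he0 hn).trans ((inter_cone_le 1).trans (Le.of_subset ?_))
      exact fun z hz => cn1_mem_add.1 hz
  obtain ⟨U, hU, hUW⟩ := he.cont_inv hr (cone_mem_nhds 0 root)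
  rw [h0] at hU
  obtain ⟨l, hl⟩ := exists_tail_subset ((continuous_cn 0).continuousAt.preimage_mem_nhds hU)
  refine ⟨l, (le_cn 1 V).trans (he.le_of ?_ ?_)⟩
  · rintro _ ⟨y, hy, rfl⟩
    exact cn1_mem_add.2 hy
  · rintro _ ⟨y, hy, rfl⟩
    have h3 : cn 1 y ∈ add (L Y) V := cn1_mem_add.2 hy
    have h4 : f (cn 1 y) ∉ U := fun h => absurd (mem_cone_iff.1 (hUW _ h3 h)) (by norm_num)
    rcases mem_add_cases (hm h3) with ⟨z, hz, h5⟩ | ⟨z, hz, h5⟩
    · rw [h5] at h4 ⊢
      refine cn0_mem_add.2 ?_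
      rcases hz with rfl | ⟨m, -, w, hw, rfl⟩
      · exact absurd (hl (root_mem_tail l)) h4
      · refine cn_mem_sigOn.2 ⟨not_le.1 fun h => h4 (hl (cn_mem_tail.2 h)), hw⟩
    · rw [h5]
      exact cn1_mem_add.2 hz

end Pool.Agent.MP_f74662_gt

end

-- part MP_f74662_gt.Classify
section

/-!
Classification of the subsets of a set of finite depth.
-/

set_option autoImplicit false

open Set Filter Topology

namespace Pool.Agent.MP_f74662_gt

/-- `Z` is equivalent to a sum of members of `G` -/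
def Cls (G : Set (Set T)) (Z : Set T) : Prop :=
  ∃ h : ℕ → Set T, (∀ i, h i ∈ G ∨ h i = ∅) ∧ Le Z (sig h) ∧ Le (sig h) Z

/-- atoms over `G` -/
def At (G : Set (Set T)) : Set (Set T) := G ∪ om '' G

lemma At.finite {G : Set (Set T)} (h : G.Finite) : (At G).Finite := h.union (h.image _)

lemma At.atom {G : Set (Set T)} (hG : ∀ h ∈ G, ∃ Y, h = L Y) {a : Set T} (ha : a ∈ At G) :
    Atom a := by
  rcases ha with ha | ⟨b, hb, rfl⟩
  · obtain ⟨Y, rfl⟩ := hG a ha
    exact atom_L Y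
  · obtain ⟨Y, rfl⟩ := hG b hb
    exact atom_om_L Y

lemma Cls.equiv {G : Set (Set T)} {Z Z' : Set T} (h : Cls G Z) (h1 : Le Z' Z) (h2 : Le Z Z') :
    Cls G Z' := by
  obtain ⟨f, hf, ha, hb⟩ := h
  exact ⟨f, hf, h1.trans ha, hb.trans h2⟩

lemma Cls.mono {G G' : Set (Set T)} {Z : Set T} (h : Cls G Z) (hG : G ⊆ G') : Cls G' Z := by
  obtain ⟨f, hf, ha, hb⟩ := h
  exact ⟨f, fun i => (hf i).imp_left fun h => hG h, ha, hb⟩

lemma cls_empty (G : Set (Set T)) : Cls G ∅ := by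
  refine ⟨fun _ => ∅, fun _ => Or.inr rfl, empty_le _, Le.of_subset ?_⟩
  rintro _ ⟨n, -, y, hy, rfl⟩
  exact hy

lemma cls_sig {G : Set (Set T)} {W : ℕ → Set T} (h : ∀ n, Cls G (W n)) : Cls G (sig W) := by
  choose f hf ha hb using h
  exact ⟨fun k => f (Nat.unpair k).1 (Nat.unpair k).2, fun k => hf _ _,
    (sig_mono ha).trans (sig_sig_le f), (le_sig_sig f).trans (sig_mono hb)⟩

lemma Cls.add {G : Set (Set T)} {A B : Set T} (hA : Cls G A) (hB : Cls G B) : Cls G (add A B) := by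
  refine cls_sig fun n => ?_
  split_ifs
  exacts [hA, hB, cls_empty G]

lemma cls_single {G : Set (Set T)} {a : Set T} (ha : a ∈ G) : Cls G a := by
  refine ⟨fun n => if n = 0 then a else if n = 1 then ∅ else ∅, fun n => ?_, le_add_l a ∅,
    add_empty_le a⟩
  dsimp only
  split_ifs
  exacts [Or.inl ha, Or.inr rfl, Or.inr rfl]

lemma cls_sigOn {G : Set (Set T)} {W : ℕ → Set T} (S : Set ℕ) (h : ∀ n, Cls G (W n)) :
    Cls G (sigOn S W) := by
  classical
  rw [sigOn_eq_sig]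
  refine cls_sig fun n => ?_
  split_ifs
  exacts [h n, cls_empty G]

lemma cls_of_idl {G : Set (Set T)} {g W : Set T} (hg : ∀ Z, Z ⊆ g → Cls G Z) (h : Idl g W) :
    Cls G W := by
  refine h (fun X => ∀ Z, Le Z X → Cls G Z) ?_ ?_ ?_ W (Le.refl _)
  · intro Z hZ
    obtain ⟨Z', h1, h2, h3⟩ := hZ.exists_subset
    exact (hg Z' h1).equiv h2 h3
  · intro A B hA hB Z hZ
    obtain ⟨Z', h1, h2, h3⟩ := hZ.exists_subset
    obtain ⟨A', B', h4, h5, rfl⟩ := eq_add_of_subset h1
    exact ((hA A' (Le.of_subset h4)).add (hB B' (Le.of_subset h5))).equiv h2 h3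
  · intro A B hAB hB Z hZ
    exact hB Z (hZ.trans hAB)

lemma idl_sigOn_aux {Y Z : Set T} {f : ℕ → Set T} (hZ : Le (sig f) Z) {G : Set (Set T)}
    (hG : G.Finite) (hY : ∀ a ∈ At G, Le a Z → Idl Y a) :
    ∀ S : Set ℕ, (∀ i ∈ S, f i ∈ G ∨ f i = ∅) → Idl Y (sigOn S f) := by
  induction G, hG using Set.Finite.induction_on with
  | empty =>
    intro S hS
    refine Idl.of_le (Le.of_subset ?_) (idl_empty Y)
    rintro _ ⟨n, hn, y, hy, rfl⟩
    rcases hS n hn with h | h
    · exact h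
    · rw [h] at hy; exact hy
  | @insert a s _ _ ih =>
    intro S hS
    have ih' := ih (fun b hb => hY b (by
      rcases hb with hb | ⟨c, hc, rfl⟩
      · exact Or.inl (mem_insert_of_mem _ hb)
      · exact Or.inr ⟨c, mem_insert_of_mem _ hc, rfl⟩))
    refine Idl.of_le (sigOn_le_add (S1 := {i | f i = a}) (S2 := {i ∈ S | f i ≠ a}) ?_)
      (Idl.add ?_ (ih' _ ?_))
    · intro i hi
      by_cases h : f i = a
      · exact Or.inl h
      · exact Or.inr ⟨hi, h⟩
    · by_cases hfin : {i | f i = a}.Finite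
      · refine idl_sigOn_finite hfin fun n hn => ?_
        have hn' : f n = a := hn
        rw [hn']
        exact hY a (Or.inl (mem_insert _ _)) (hn' ▸ (le_sig n).trans hZ)
      · have h1 : Le (om a) Z := by
          refine (om_le_sig (far_of_frequently fun k => ?_)).trans hZ
          obtain ⟨m, hm, hkm⟩ := Set.Infinite.exists_gt hfin k
          have hm' : f m = a := hm
          exact ⟨m, hkm.le, hm' ▸ Le.refl _⟩
        refine Idl.of_le (Le.of_subset ?_) (hY _ (Or.inr ⟨a, mem_insert _ _, rfl⟩) h1)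
        rintro _ ⟨n, hn, y, hy, rfl⟩
        have hn' : f n = a := hn
        exact cn_mem_sig.2 (hn' ▸ hy)
    · rintro i ⟨hi, hne⟩
      rcases hS i hi with h | h
      · exact Or.inl ((mem_insert_iff.1 h).resolve_left hne)
      · exact Or.inr h

/-- a classified set lies in every ideal containing the atoms below it -/
theorem Cls.idl {G : Set (Set T)} (hG : G.Finite) {Y Z : Set T} (h : Cls G Z)
    (hY : ∀ a ∈ At G, Le a Z → Idl Y a) : Idl Y Z := by
  obtain ⟨f, hf, ha, hb⟩ := h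
  exact Idl.of_le ha (idl_sigOn_aux hb hG hY univ fun i _ => hf i)

/-- sum of a list of sets -/
def sumL (l : List (Set T)) : Set T := l.foldr add ∅

/-- sum of a finite family of sets -/
noncomputable def gen (D : Set (Set T)) : Set T := by
  classical
  exact if h : D.Finite then sumL h.toFinset.toList else ∅

lemma le_sumL {l : List (Set T)} {a : Set T} (ha : a ∈ l) : Le a (sumL l) := by
  induction l with
  | nil => exact absurd ha (by simp)
  | cons b l ih =>
    rcases List.mem_cons.1 ha with rfl | h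
    · exact le_add_l _ _
    · exact (ih h).trans (le_add_r _ _)

lemma sumL_ind {l : List (Set T)} (I : Set T → Prop) (h0 : I ∅)
    (hadd : ∀ A B, I A → I B → I (add A B)) (h : ∀ a ∈ l, I a) : I (sumL l) := by
  induction l with
  | nil => exact h0
  | cons b l ih =>
    exact hadd _ _ (h b (by simp)) (ih fun a ha => h a (List.mem_cons_of_mem _ ha))

lemma le_gen {D : Set (Set T)} (hD : D.Finite) {a : Set T} (ha : a ∈ D) : Le a (gen D) := by
  unfold gen
  rw [dif_pos hD]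
  exact le_sumL (by simpa using ha)

lemma gen_ind {D : Set (Set T)} (I : Set T → Prop) (h0 : I ∅)
    (hadd : ∀ A B, I A → I B → I (add A B)) (h : ∀ a ∈ D, I a) : I (gen D) := by
  unfold gen
  split_ifs with hD
  · exact sumL_ind I h0 hadd fun a ha => h a (by simpa using ha)
  · exact h0

lemma idl_gen {D : Set (Set T)} {Y : Set T} (h : ∀ a ∈ D, Idl Y a) : Idl Y (gen D) :=
  gen_ind (Idl Y) (idl_empty Y) (fun _ _ => Idl.add) h

lemma far_gen {D : Set (Set T)} {W : ℕ → Set T} (h : ∀ a ∈ D, Far W a) : Far W (gen D) :=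
  gen_ind (Far W) (fun k => ⟨k, empty_le _⟩) (fun _ _ => Far.add) h

lemma Atom.le_gen {D : Set (Set T)} {b : Set T} (hb : Atom b) (h : Le b (gen D)) :
    ∃ a ∈ D, Le b a :=
  gen_ind (fun X => Le b X → ∃ a ∈ D, Le b a) (fun h => absurd h hb.1)
    (fun A B hA hB hAB => (hb.2 A B hAB).elim hA hB) (fun a ha h => ⟨a, ha, h⟩) h

/-- the atoms occurring infinitely often -/
def often (G : Set (Set T)) (W : ℕ → Set T) : Set (Set T) :=
  {a ∈ At G | ∀ k, ∃ m, k ≤ m ∧ Le a (W m)}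

theorem lim_classify {G : Set (Set T)} (hG : G.Finite) {W : ℕ → Set T} (h : ∀ m, Cls G (W m)) :
    ∃ k, Le (L (gen (often G W))) (lim W ∩ tail k) ∧ Le (lim W ∩ tail k) (L (gen (often G W))) := by
  have hfin : (often G W).Finite := (At.finite hG).subset fun a ha => ha.1
  have h1 : ∀ a ∈ At G, ∃ k, ∀ m, k ≤ m → Le a (W m) → a ∈ often G W := by
    intro a ha
    by_cases hc : a ∈ often G W
    · exact ⟨0, fun _ _ _ => hc⟩
    · have : ¬ ∀ k, ∃ m, k ≤ m ∧ Le a (W m) := fun h => hc ⟨ha, h⟩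
      push Not at this
      obtain ⟨k, hk⟩ := this
      exact ⟨k, fun m hm hl => absurd hl (hk m hm)⟩
  choose! b hb using h1
  obtain ⟨k, hk⟩ := ((At.finite hG).image b).bddAbove
  refine ⟨k, L_le_lim_tail (far_gen fun a ha => far_of_frequently ha.2) k, ?_⟩
  refine (Le.of_subset ?_).trans (lim_le_L (W := fun m => if k ≤ m then W m else ∅) fun m => ?_)
  · rintro z ⟨rfl | ⟨n, -, y, hy, rfl⟩, hz⟩
    · exact root_mem_lim
    · rw [cn_mem_lim, if_pos (cn_mem_tail.1 hz)]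
      exact hy
  · split_ifs with hm
    · refine (h m).idl hG fun a ha hl => (le_gen hfin ?_).idl
      exact hb a ha m ((hk ⟨a, ha, rfl⟩).trans hm) hl
    · exact idl_empty _

/-- finite type -/
def Good (Y : Set T) : Prop :=
  ∃ G : Set (Set T), G.Finite ∧ (∀ h ∈ G, ∃ X, h = L X) ∧ ∀ Z, Z ⊆ Y → Cls G Z

lemma good_empty : Good ∅ :=
  ⟨∅, finite_empty, fun _ h => absurd h (notMem_empty _), fun Z hZ => by
    rw [subset_empty_iff.1 hZ]; exact cls_empty _⟩

lemma Good.mono {Y Y' : Set T} (h : Good Y) (hY : Y' ⊆ Y) : Good Y' := by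
  obtain ⟨G, h1, h2, h3⟩ := h
  exact ⟨G, h1, h2, fun Z hZ => h3 Z (hZ.trans hY)⟩

theorem Good.L {Y : Set T} (h : Good Y) : Good (L Y) := by
  obtain ⟨G, h1, h2, h3⟩ := h
  refine ⟨G ∪ (fun D => MP_f74662_gt.L (gen D)) '' {D | D ⊆ At G},
    h1.union ((At.finite h1).finite_subsets.image _), ?_, fun Z hZ => ?_⟩
  · rintro a (ha | ⟨D, -, rfl⟩)
    · exact h2 a ha
    · exact ⟨_, rfl⟩
  · have hs : ∀ m, Cls G (sec Z m) := fun m => h3 _ (sec_subset_of_lim hZ m)
    by_cases hr : root ∈ Z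
    · obtain ⟨k, ha, hb⟩ := lim_classify h1 hs
      rw [eq_lim_sec hr]
      have h4 : Cls (G ∪ (fun D => MP_f74662_gt.L (gen D)) '' {D | D ⊆ At G})
          (lim (sec Z) ∩ tail k) :=
        (cls_single (Or.inr ⟨often G (sec Z), fun a ha => ha.1, rfl⟩)).equiv hb ha
      exact (h4.add ((cls_sigOn _ hs).mono subset_union_left)).equiv (lim_le_add_tail _ k)
        (add_tail_le_lim _ k)
    · rw [eq_sig_sec hr]
      exact (cls_sig hs).mono subset_union_left

theorem Good.om {Y : Set T} (h : Good Y) : Good (om Y) := h.L.mono sig_subset_lim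

end Pool.Agent.MP_f74662_gt

end

-- part MP_f74662_gt.Covers
section

/-!
The covering relations.
-/

set_option autoImplicit false

open Set Filter Topology

namespace Pool.Agent.MP_f74662_gt

/-- `A` immediately precedes `B` -/
def Cov (A B : Set T) : Prop := Le A B ∧ ¬ Le B A ∧ ∀ Z, Z ⊆ B → Le A Z → Le Z A ∨ Le B Z

/-- embeddability up to the ideal of `X` -/
def Lex (X V V' : Set T) : Prop := ∃ J, Idl X J ∧ Le V (add J V')

lemma Le.lex {X V V' : Set T} (h : Le V V') : Lex X V V' :=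
  ⟨∅, idl_empty X, h.trans (le_add_r _ _)⟩

lemma Lex.add_le {X V V' : Set T} (h : Lex X V V') : Le (add (L X) V) (add (L X) V') := by
  obtain ⟨J, hJ, hV⟩ := h
  exact (add_mono (Le.refl _) hV).trans ((add_assoc_ge _ _ _).trans
    (add_mono (add_L_le hJ) (Le.refl _)))

lemma lex_of_add_le {X V V' : Set T} (hX : ¬ Le (L X) X) (hV : ¬ Le (L X) V')
    (h : Le (add (L X) V) (add (L X) V')) : Lex X V V' := by
  obtain ⟨l, hl⟩ := cancel (W := fun _ => X) h (fun _ => hX) hV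
  exact ⟨_, idl_sigOn_finite (finite_Iio l) fun _ _ => Idl.self X, hl⟩

lemma Lex.atom {X a V : Set T} (h : Lex X a V) (ha : Atom a) (hX : ¬ Le a X) : Le a V := by
  obtain ⟨J, hJ, hV⟩ := h
  exact (ha.2 _ _ hV).resolve_left fun h => hX (ha.le_of_idl hJ h)

lemma Lex.of_le {X V V' V'' : Set T} (h : Le V V') (h' : Lex X V' V'') : Lex X V V'' := by
  obtain ⟨J, hJ, hV⟩ := h'
  exact ⟨J, hJ, h.trans hV⟩

theorem cov_of_lex {X V V' : Set T} (hX : ¬ Le (L X) X) (hV : ¬ Le (L X) V') (h1 : Le V V')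
    (h2 : ¬ Lex X V' V) (h3 : ∀ Z, Z ⊆ V' → Lex X V Z → Lex X Z V ∨ Lex X V' Z) :
    Cov (add (L X) V) (add (L X) V') := by
  refine ⟨add_mono (Le.refl _) h1, fun h => h2 (lex_of_add_le hX (fun h' => hV (h'.trans h1)) h),
    fun Z hZ hle => ?_⟩
  obtain ⟨Z1, Z2, hZ1, hZ2, rfl⟩ := eq_add_of_subset hZ
  have hn : ¬ Le (L X) Z2 := fun h => hV (h.trans (Le.of_subset hZ2))
  have hup : Le (add Z1 Z2) (add (L X) Z2) := add_mono (Le.of_subset hZ1) (Le.refl _)
  have hx : Le (L X) Z1 := ((atom_L X).2 _ _ ((le_add_l _ _).trans hle)).resolve_right hn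
  rcases h3 Z2 hZ2 (lex_of_add_le hX hn (hle.trans hup)) with h | h
  · exact Or.inl (hup.trans h.add_le)
  · exact Or.inr (h.add_le.trans (add_mono hx (Le.refl _)))

/-- down-closed families of atoms below `g` -/
def Dn (G : Set (Set T)) (g : Set T) (D : Set (Set T)) : Prop :=
  D ⊆ At G ∧ (∀ a ∈ D, Le a g) ∧ ∀ a ∈ D, ∀ b ∈ At G, Le b a → b ∈ D

def below (G : Set (Set T)) (X : Set T) : Set (Set T) := {a ∈ At G | Le a X}

def PP (D : Set (Set T)) : Set T := L (gen D)

lemma dn_below {G : Set (Set T)} {g X : Set T} (h : Le X g) : Dn G g (below G X) :=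
  ⟨fun _ ha => ha.1, fun _ ha => ha.2.trans h, fun _ ha _ hb hba => ⟨hb, hba.trans ha.2⟩⟩

lemma Dn.subset_top {G : Set (Set T)} {g : Set T} {D : Set (Set T)} (h : Dn G g D) :
    D ⊆ below G g := fun a ha => ⟨h.1 ha, h.2.1 a ha⟩

lemma Dn.idl {G : Set (Set T)} {g : Set T} {D : Set (Set T)} (h : Dn G g D) : Idl g (gen D) :=
  idl_gen fun a ha => (h.2.1 a ha).idl

/-- the standing hypotheses -/
structure Setup (G : Set (Set T)) (Yg : Set T) : Prop where
  fin : G.Finite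
  germ : ∀ h ∈ G, ∃ X, h = L X
  cls : ∀ Z, Z ⊆ L Yg → Cls G Z
  rk : ¬ Le (L Yg) Yg

section

variable {G : Set (Set T)} {Yg : Set T} (S : Setup G Yg)
include S

lemma Setup.dn_finite {D : Set (Set T)} (h : Dn G (L Yg) D) : D.Finite :=
  (At.finite S.fin).subset h.1

lemma Setup.mem_of_le_gen {D : Set (Set T)} (h : Dn G (L Yg) D) {a : Set T} (ha : a ∈ At G)
    (hl : Le a (gen D)) : a ∈ D := by
  obtain ⟨b, hb, hab⟩ := (At.atom S.germ ha).le_gen hl
  exact h.2.2 b hb a ha hab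

lemma Setup.PP_mono {D D' : Set (Set T)} (h' : Dn G (L Yg) D') (hD : D ⊆ D') :
    Le (PP D) (PP D') :=
  L_mono_idl (idl_gen fun _ ha => (le_gen (S.dn_finite h') (hD ha)).idl)

lemma Setup.subset_of_PP_le {D D' : Set (Set T)} (h : Dn G (L Yg) D) (h' : Dn G (L Yg) D')
    (hl : Le (PP D) (PP D')) : D ⊆ D' := by
  intro a ha
  refine S.mem_of_le_gen h' (h.1 ha) ?_
  exact (At.atom S.germ (h.1 ha)).le_of_idl (idl_of_L_le_L hl) (le_gen (S.dn_finite h) ha)

lemma Setup.exists_rep {X : Set T} (h : Le (L X) (L Yg)) :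
    ∃ a ∈ G, Le (L X) a ∧ Le a (L X) := by
  obtain ⟨f, hf, ha, hb⟩ := cls_of_idl S.cls h.idl
  obtain ⟨m, hm⟩ := L_le_sig_cases ha
  rcases hf m with h1 | h1
  · exact ⟨f m, h1, hm, (le_sig m).trans hb⟩
  · rw [h1] at hm
    exact absurd hm (not_L_le_empty X)

lemma Setup.g_le_gen_top : Le (L Yg) (gen (below G (L Yg))) := by
  obtain ⟨a, ha, h1, h2⟩ := S.exists_rep (Le.refl _)
  exact h1.trans (le_gen (S.dn_finite (dn_below (Le.refl _))) ⟨Or.inl ha, h2⟩)

lemma Setup.eq_top_of_g_le {D : Set (Set T)} (h : Dn G (L Yg) D) (hl : Le (L Yg) (gen D)) :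
    D = below G (L Yg) :=
  h.subset_top.antisymm fun _ ha => S.mem_of_le_gen h ha.1 (ha.2.trans hl)

lemma Setup.not_om_le_of_idl {J : Set T} (hJ : Idl (L Yg) J) : ¬ Le (om (L Yg)) J :=
  fun h => S.rk (le_of_om_le_L ((atom_om_L Yg).le_of_idl hJ h))

lemma Setup.struct {D' : Set (Set T)} (h' : Dn G (L Yg) D') {Z : Set T} (hZ : Z ⊆ PP D')
    (hr : root ∈ Z) : ∃ D, Dn G (L Yg) D ∧ D ⊆ D' ∧ Le (PP D) Z ∧
      ∃ F, Idl (L Yg) F ∧ Le Z (add (PP D) F) := by
  have hs : ∀ m, sec Z m ⊆ gen D' := fun m => sec_subset_of_lim hZ m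
  have hi : ∀ m, Idl (L Yg) (sec Z m) := fun m => Idl.of_le (Le.of_subset (hs m)) h'.idl
  obtain ⟨k, ha, hb⟩ := lim_classify S.fin fun m => cls_of_idl S.cls (hi m)
  have hsub : often G (sec Z) ⊆ D' := by
    intro a ha
    obtain ⟨m, -, hm⟩ := ha.2 0
    exact S.mem_of_le_gen h' ha.1 (hm.trans (Le.of_subset (hs m)))
  refine ⟨often G (sec Z), ⟨fun a ha => ha.1, fun a ha => h'.2.1 a (hsub ha), ?_⟩, hsub, ?_,
    sigOn (Iio k) (sec Z), idl_sigOn_finite (finite_Iio k) fun m _ => hi m, ?_⟩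
  · intro a ha b hb hba
    exact ⟨hb, fun j => (ha.2 j).imp fun m hm => ⟨hm.1, hba.trans hm.2⟩⟩
  · refine ha.trans (Le.of_subset ?_)
    rw [← eq_lim_sec hr]
    exact inter_subset_left
  · have := (lim_le_add_tail (sec Z) k).trans (add_mono hb (Le.refl _))
    rwa [← eq_lim_sec hr] at this

omit S in
lemma le_om_of_root_notMem {D' : Set (Set T)} (h' : Dn G (L Yg) D') {Z : Set T} (hZ : Z ⊆ PP D')
    (hr : root ∉ Z) : Le Z (om (L Yg)) := by
  rw [eq_sig_sec hr]
  exact sig_le_om fun m => Idl.of_le (Le.of_subset (sec_subset_of_lim hZ m)) h'.idl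

end

/-- the ideal of the absorbing germ -/
noncomputable def YX (G : Set (Set T)) (g : Set T) (D1 : Set (Set T)) : Set T :=
  gen (om '' {h ∈ G | Le h g ∧ ¬ Le g h} ∪ PP '' {D | Dn G g D ∧ D ⊂ D1})

/-- further hypotheses -/
structure Setup2 (G : Set (Set T)) (Yg : Set T) (D1 : Set (Set T)) : Prop extends Setup G Yg where
  dn1 : Dn G (L Yg) D1
  big : ¬ Le (PP D1) (L Yg)
  ne_top : D1 ≠ below G (L Yg)
  wit : ∃ h ∈ G, Le h (L Yg) ∧ ¬ Le (L Yg) h ∧ ¬ Le h Yg

section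

variable {G : Set (Set T)} {Yg : Set T} {D1 : Set (Set T)} (S : Setup2 G Yg D1)
include S

lemma Setup2.fam_finite :
    (om '' {h ∈ G | Le h (L Yg) ∧ ¬ Le (L Yg) h} ∪ PP '' {D | Dn G (L Yg) D ∧ D ⊂ D1}).Finite :=
  ((S.fin.subset fun _ h => h.1).image _).union
    (((At.finite S.fin).finite_subsets.subset fun _ h => h.1.1).image _)

lemma Setup2.om_le_YX {h : Set T} (h1 : h ∈ G) (h2 : Le h (L Yg)) (h3 : ¬ Le (L Yg) h) :
    Le (om h) (YX G (L Yg) D1) := le_gen S.fam_finite (Or.inl ⟨h, ⟨h1, h2, h3⟩, rfl⟩)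

lemma Setup2.PP_le_YX {D : Set (Set T)} (h1 : Dn G (L Yg) D) (h2 : D ⊂ D1) :
    Le (PP D) (YX G (L Yg) D1) := le_gen S.fam_finite (Or.inr ⟨D, ⟨h1, h2⟩, rfl⟩)

lemma Setup2.not_PP_le_g {D : Set (Set T)} (h1 : Dn G (L Yg) D) (h2 : D1 ⊆ D) :
    ¬ Le (PP D) (L Yg) := fun h => S.big ((S.PP_mono h1 h2).trans h)

lemma Setup2.not_PP_le_idl {D : Set (Set T)} (h1 : Dn G (L Yg) D) (h2 : D1 ⊆ D) {J : Set T}
    (hJ : Idl (L Yg) J) : ¬ Le (PP D) J := fun h =>
  S.not_PP_le_g h1 h2 ((atom_L _).le_of_idl hJ h)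

lemma Setup2.not_PP_le_om {D : Set (Set T)} (h1 : Dn G (L Yg) D) (h2 : D1 ⊆ D) :
    ¬ Le (PP D) (om (L Yg)) := fun h => S.not_PP_le_g h1 h2 (le_of_L_le_om h)

lemma Setup2.x_not_le_Q : ¬ Le (L (YX G (L Yg) D1)) (PP (below G (L Yg))) := by
  intro hl
  obtain ⟨h, h1, h2, h3, h4⟩ := S.wit
  obtain ⟨X, rfl⟩ := S.germ h h1
  have h5 : Idl (L Yg) (YX G (L Yg) D1) :=
    (idl_of_L_le_L hl).trans (dn_below (G := G) (Le.refl _)).idl
  exact h4 (le_of_om_le_L ((atom_om_L X).le_of_idl h5 (S.om_le_YX h1 h2 h3)))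

lemma Setup2.g_le_Q : Le (L Yg) (PP (below G (L Yg))) := S.g_le_gen_top.trans (le_L _)

lemma Setup2.om_not_le_YX : ¬ Le (om (L Yg)) (YX G (L Yg) D1) := by
  intro hl
  obtain ⟨a, ha, hla⟩ := (atom_om_L Yg).le_gen hl
  rcases ha with ⟨h, ⟨-, -, h3⟩, rfl⟩ | ⟨D, ⟨h1, h2⟩, rfl⟩
  · exact h3 (le_of_L_le_om ((le_om _).trans hla))
  · have := S.eq_top_of_g_le h1 (le_of_om_le_L hla)
    exact h2.2 (this ▸ S.dn1.subset_top)

lemma Setup2.PP_not_le_YX {D : Set (Set T)} (hD : Dn G (L Yg) D) (h1 : D1 ⊆ D) :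
    ¬ Le (PP D) (YX G (L Yg) D1) := by
  intro hl
  obtain ⟨a, ha, hla⟩ := (atom_L _).le_gen hl
  rcases ha with ⟨h, ⟨-, h2, -⟩, rfl⟩ | ⟨D', ⟨h2, h3⟩, rfl⟩
  · exact S.not_PP_le_g hD h1 ((le_of_L_le_om hla).trans h2)
  · exact h3.2 (h1.trans (S.subset_of_PP_le hD h2 hla))

lemma Setup2.x_not_le_YX : ¬ Le (L (YX G (L Yg) D1)) (YX G (L Yg) D1) := by
  intro hl
  obtain ⟨a, ha, hla⟩ := (atom_L _).le_gen hl
  apply S.x_not_le_Q
  rcases ha with ⟨h, ⟨-, h2, -⟩, rfl⟩ | ⟨D', ⟨h2, -⟩, rfl⟩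
  · exact ((le_of_L_le_om hla).trans h2).trans S.g_le_Q
  · exact hla.trans (S.PP_mono (dn_below (Le.refl _)) h2.subset_top)

lemma Setup2.x_not_le_add {D : Set (Set T)} (hD : Dn G (L Yg) D) :
    ¬ Le (L (YX G (L Yg) D1)) (add (PP D) (om (L Yg))) := by
  intro hl
  apply S.x_not_le_Q
  rcases (atom_L _).2 _ _ hl with h | h
  · exact h.trans (S.PP_mono (dn_below (Le.refl _)) hD.subset_top)
  · exact (le_of_L_le_om h).trans S.g_le_Q

theorem Setup2.cov1 : Cov (add (L (YX G (L Yg) D1)) (om (L Yg)))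
    (add (L (YX G (L Yg) D1)) (PP (below G (L Yg)))) := by
  have ht : Dn G (L Yg) (below G (L Yg)) := dn_below (Le.refl _)
  refine cov_of_lex S.x_not_le_YX S.x_not_le_Q
    ((om_mono S.g_le_gen_top).trans (om_le_L _)) (fun h => ?_) fun Z hZ h => ?_
  · exact S.not_PP_le_om ht S.dn1.subset_top
      (h.atom (atom_L _) (S.PP_not_le_YX ht S.dn1.subset_top))
  · have h1 := h.atom (atom_om_L _) S.om_not_le_YX
    by_cases hr : root ∈ Z
    · right
      rw [eq_lim_sec hr] at h1 ⊢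
      rcases om_L_le_lim_cases h1 with ⟨m, hm⟩ | hm
      · exact absurd hm (S.not_om_le_of_idl
          (Idl.of_le (Le.of_subset (sec_subset_of_lim hZ m)) ht.idl))
      · exact (L_le_lim (ht.idl.far (far_of_frequently hm))).lex
    · exact Or.inl (le_om_of_root_notMem ht hZ hr).lex

/-- if the top germ and the infinite sum embed, the infinite sum lands in the second summand -/
lemma Setup2.om_le_second {D D' : Set (Set T)} (hD : Dn G (L Yg) D) (h1 : D1 ⊆ D)
    (hD' : Dn G (L Yg) D') {Z1 Z2 : Set T} (hZ1 : Z1 ⊆ PP D') (hZ2 : ¬ Le (PP D) Z2)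
    (h : Lex (YX G (L Yg) D1) (add (PP D) (om (L Yg))) (add Z1 Z2)) : Le (om (L Yg)) Z2 := by
  obtain ⟨J, hJ, hl⟩ := h
  have h2 : Le (add (PP D) (om (L Yg))) (add (PP D') (add J Z2)) :=
    hl.trans ((add_left_comm_le _ _ _).trans (add_mono (Le.of_subset hZ1) (Le.refl _)))
  obtain ⟨l, hl'⟩ := cancel (W := fun _ => gen D') h2 (fun _ => S.not_PP_le_idl hD h1 hD'.idl)
    (fun h => ((atom_L _).2 _ _ h).elim
      (fun h' => S.PP_not_le_YX hD h1 ((atom_L _).le_of_idl hJ h')) hZ2)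
  rcases (atom_om_L _).2 _ _ hl' with h3 | h3
  · exact absurd h3 (S.not_om_le_of_idl (idl_sigOn_finite (finite_Iio l) fun _ _ => hD'.idl))
  · exact ((atom_om_L _).2 _ _ h3).resolve_left fun h4 =>
      S.om_not_le_YX ((atom_om_L _).le_of_idl hJ h4)

theorem Setup2.cov2 : Cov (add (L (YX G (L Yg) D1)) (PP (below G (L Yg))))
    (add (L (YX G (L Yg) D1)) (add (PP (below G (L Yg))) (om (L Yg)))) := by
  have ht : Dn G (L Yg) (below G (L Yg)) := dn_below (Le.refl _)
  have h1t := S.dn1.subset_top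
  refine cov_of_lex S.x_not_le_YX (S.x_not_le_add ht) (le_add_l _ _) (fun h => ?_)
    fun Z hZ h => ?_
  · obtain ⟨J, hJ, hl⟩ := h
    have := S.om_le_second ht h1t ht (Z2 := ∅) subset_rfl (not_L_le_empty _)
      ⟨J, hJ, hl.trans (add_mono (Le.refl _) (le_add_l _ _))⟩
    exact (atom_om_L _).1 this
  · obtain ⟨Z1, Z2, hZ1, hZ2, rfl⟩ := eq_add_of_subset hZ
    have h2 := h.atom (atom_L _) (S.PP_not_le_YX ht h1t)
    have h3 : Le (PP (below G (L Yg))) Z1 := ((atom_L _).2 _ _ h2).resolve_right fun h =>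
      S.not_PP_le_om ht h1t (h.trans (Le.of_subset hZ2))
    have hr : root ∉ Z2 := fun h => root_notMem_sig (hZ2 h)
    have hs : ∀ m, sec Z2 m ⊆ L Yg := fun m => sec_subset_of_sig hZ2 m
    by_cases hc : ∀ k, ∃ m, k ≤ m ∧ Le (L Yg) (sec Z2 m)
    · right
      refine (add_mono h3 ?_).lex
      rw [eq_sig_sec hr]
      exact om_le_sig (far_of_frequently hc)
    · left
      push Not at hc
      obtain ⟨k, hk⟩ := hc
      have key : ∀ h ∈ G, Le h (sigOn (Ici k) (sec Z2)) → Le (om h) (YX G (L Yg) D1) := by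
        intro h hh hl
        obtain ⟨X, rfl⟩ := S.germ h hh
        classical
        rw [sigOn_eq_sig] at hl
        obtain ⟨m, hm⟩ := L_le_sig_cases hl
        split_ifs at hm with hkm
        · exact S.om_le_YX hh (hm.trans (Le.of_subset (hs m))) fun h => hk m hkm (h.trans hm)
        · exact absurd hm (not_L_le_empty X)
      refine ⟨sigOn (Ici k) (sec Z2), ?_, ?_⟩
      · refine (cls_sigOn _ fun m => S.cls _ (hs m)).idl S.fin ?_
        rintro a (ha | ⟨b, hb, rfl⟩) hl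
        · exact ((le_om a).trans (key a ha hl)).idl
        · exact (key b hb ((le_om b).trans hl)).idl
      · have h4 : Le Z2 (add (sigOn (Iio k) (sec Z2)) (sigOn (Ici k) (sec Z2))) := by
          conv_lhs => rw [eq_sig_sec hr]
          exact sigOn_le_add (by simp)
        have h5 : Idl (gen (below G (L Yg))) (sigOn (Iio k) (sec Z2)) :=
          idl_sigOn_finite (finite_Iio k) fun m _ =>
            ((Le.of_subset (hs m)).trans S.g_le_gen_top).idl
        exact (add_mono (Le.of_subset hZ1) h4).trans ((add_assoc_ge _ _ _).trans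
          ((add_mono (add_L_le h5) (Le.refl _)).trans (add_comm_le _ _)))

theorem Setup2.cov3 : Cov (add (L (YX G (L Yg) D1)) (om (L Yg)))
    (add (L (YX G (L Yg) D1)) (add (PP D1) (om (L Yg)))) := by
  refine cov_of_lex S.x_not_le_YX (S.x_not_le_add S.dn1) (le_add_r _ _) (fun h => ?_)
    fun Z hZ h => ?_
  · exact S.not_PP_le_om S.dn1 subset_rfl
      ((Lex.of_le (le_add_l _ _) h).atom (atom_L _) (S.PP_not_le_YX S.dn1 subset_rfl))
  · obtain ⟨Z1, Z2, hZ1, hZ2, rfl⟩ := eq_add_of_subset hZ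
    have h1 := h.atom (atom_om_L _) S.om_not_le_YX
    by_cases hr : root ∈ Z1
    · obtain ⟨D, hD, hDD, h2, F, hF, h3⟩ := S.struct S.dn1 hZ1 hr
      by_cases hc : D = D1
      · right
        subst hc
        refine (add_mono h2 (((atom_om_L _).2 _ _ h1).resolve_left fun h4 => ?_)).lex
        exact S.ne_top (S.eq_top_of_g_le hD (le_of_om_le_L (h4.trans (Le.of_subset hZ1))))
      · left
        refine ⟨PP D, (S.PP_le_YX hD (hDD.ssubset_of_ne hc)).idl, ?_⟩
        exact (add_mono h3 (Le.refl _)).trans ((add_assoc_le _ _ _).trans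
          (add_mono (Le.refl _) (add_le_om hF.le_om (Le.of_subset hZ2))))
    · exact Or.inl (add_le_om (le_om_of_root_notMem S.dn1 hZ1 hr) (Le.of_subset hZ2)).lex

theorem Setup2.cov4 {D D' : Set (Set T)} (hD : Dn G (L Yg) D) (hD' : Dn G (L Yg) D')
    (h1 : D1 ⊆ D) (hlt : D ⊂ D') (hcov : ∀ E, Dn G (L Yg) E → D ⊆ E → E ⊆ D' → E = D ∨ E = D') :
    Cov (add (L (YX G (L Yg) D1)) (add (PP D) (om (L Yg))))
      (add (L (YX G (L Yg) D1)) (add (PP D') (om (L Yg)))) := by
  have h1' : D1 ⊆ D' := h1.trans hlt.1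
  refine cov_of_lex S.x_not_le_YX (S.x_not_le_add hD')
    (add_mono (S.PP_mono hD' hlt.1) (Le.refl _)) (fun h => ?_) fun Z hZ h => ?_
  · have h2 := (Lex.of_le (le_add_l _ _) h).atom (atom_L _) (S.PP_not_le_YX hD' h1')
    rcases (atom_L _).2 _ _ h2 with h3 | h3
    · exact hlt.2 (S.subset_of_PP_le hD' hD h3)
    · exact S.not_PP_le_om hD' h1' h3
  · obtain ⟨Z1, Z2, hZ1, hZ2, rfl⟩ := eq_add_of_subset hZ
    have hn2 : ¬ Le (PP D) Z2 := fun h => S.not_PP_le_om hD h1 (h.trans (Le.of_subset hZ2))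
    have h2 := (Lex.of_le (le_add_l _ _) h).atom (atom_L _) (S.PP_not_le_YX hD h1)
    have h3 : Le (PP D) Z1 := ((atom_L _).2 _ _ h2).resolve_right hn2
    have hr : root ∈ Z1 := by
      by_contra hr
      exact S.not_PP_le_om hD h1 (h3.trans (le_om_of_root_notMem hD' hZ1 hr))
    obtain ⟨E, hE, hED, h4, F, hF, h5⟩ := S.struct hD' hZ1 hr
    have h6 : D ⊆ E := S.subset_of_PP_le hD hE
      (((atom_L _).2 _ _ (h3.trans h5)).resolve_right (S.not_PP_le_idl hD h1 hF))
    rcases hcov E hE h6 hED with rfl | rfl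
    · left
      exact ((add_mono h5 (Le.refl _)).trans ((add_assoc_le _ _ _).trans
          (add_mono (Le.refl _) (add_le_om hF.le_om (Le.of_subset hZ2))))).lex
    · right
      exact (add_mono h4 (S.om_le_second hD h1 hD' hZ1 hn2 h)).lex

end

end Pool.Agent.MP_f74662_gt

end

-- part MP_f74662_gt.Final
section

/-!
A long chain of germs, and the configuration in the Cantor space.
-/

set_option autoImplicit false

open Set Filter Topology

namespace Pool.Agent.MP_f74662_gt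

def MM : ℕ → Set T
  | 0 => L ∅
  | n + 1 => L (om (MM n))

def ch : ℕ → ℕ → Set T
  | 0, _ => L ∅
  | n + 1, i => if i ≤ n then L (ch n i) else L (om (MM n))

lemma ch_diag (n : ℕ) : ch n n = MM n := by
  cases n with
  | zero => rfl
  | succ n => simp [ch, MM]

lemma MM_germ (n : ℕ) : ∃ X, MM n = L X := by
  cases n with
  | zero => exact ⟨_, rfl⟩
  | succ n => exact ⟨_, rfl⟩

lemma ch_germ (n i : ℕ) : ∃ X, ch n i = L X := by
  cases n with
  | zero => exact ⟨_, rfl⟩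
  | succ n =>
    unfold ch
    split_ifs
    exacts [⟨_, rfl⟩, ⟨_, rfl⟩]

lemma good_MM (n : ℕ) : Good (MM n) := by
  induction n with
  | zero => exact good_empty.L
  | succ n ih => exact ih.om.L

lemma ch_zero_succ (n : ℕ) : ch (n + 1) 0 = L (ch n 0) := by simp [ch]

lemma K_not_le (n : ℕ) : ¬ Le (ch (n + 1) 0) (MM n) := by
  induction n with
  | zero =>
    intro h
    rw [ch_zero_succ] at h
    exact not_L_le_empty _ ((atom_L _).le_of_idl' (idl_of_L_le_L h))
  | succ n ih =>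
    intro h
    rw [ch_zero_succ] at h
    have h1 := idl_of_L_le_L h
    rw [ch_zero_succ] at h1 ih
    exact ih (le_of_L_le_om ((atom_L _).le_of_idl' h1))

lemma MM_succ_not_le (n : ℕ) : ¬ Le (MM (n + 1)) (MM n) := by
  induction n with
  | zero =>
    intro h
    exact (atom_om_L _).1 ((atom_om_L _).le_of_idl' (idl_of_L_le_L h))
  | succ n ih =>
    intro h
    have h1 : Le (om (MM (n + 1))) (om (MM n)) := (atom_om_L _).le_of_idl' (idl_of_L_le_L h)
    exact ih (le_of_L_le_om ((le_om _).trans h1))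

lemma om_MM_not_le (n : ℕ) : ¬ Le (om (MM n)) (MM n) := by
  cases n with
  | zero =>
    intro h
    exact not_L_le_empty _ (le_of_om_le_L h)
  | succ n =>
    intro h
    exact MM_succ_not_le n (le_of_L_le_om (le_of_om_le_L h))

lemma ch_lt (n : ℕ) : ∀ i, i < n → Le (ch n i) (ch n (i + 1)) ∧ ¬ Le (ch n (i + 1)) (ch n i) := by
  induction n with
  | zero => intro i hi; omega
  | succ n ih =>
    intro i hi
    by_cases h : i + 1 ≤ n
    · have h0 : i ≤ n := by omega
      simp only [ch, h, h0, if_true]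
      refine ⟨L_mono (ih i (by omega)).1, fun hl => (ih i (by omega)).2 ?_⟩
      obtain ⟨X, hX⟩ := ch_germ n (i + 1)
      have := idl_of_L_le_L hl
      rw [hX] at this ⊢
      exact (atom_L X).le_of_idl' this
    · obtain rfl : i = n := by omega
      simp only [ch, h, le_refl, if_true, if_false, ch_diag]
      refine ⟨L_mono (le_om _), fun hl => om_MM_not_le i ?_⟩
      obtain ⟨X, hX⟩ := MM_germ i
      have := idl_of_L_le_L hl
      rw [hX] at this ⊢
      exact (atom_om_L X).le_of_idl' this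

lemma ch_le (n : ℕ) {i j : ℕ} (hij : i ≤ j) (hj : j ≤ n) : Le (ch n i) (ch n j) := by
  induction j, hij using Nat.le_induction with
  | base => exact Le.refl _
  | succ j _ ih => exact (ih (by omega)).trans (ch_lt n j (by omega)).1

lemma exists_cover {α : Type} [PartialOrder α] {S : Set α} (hS : S.Finite) {a b : α} (ha : a ∈ S)
    (hab : a < b) : ∃ c ∈ S, a ≤ c ∧ c < b ∧ ∀ e ∈ S, c ≤ e → e ≤ b → e = c ∨ e = b := by
  obtain ⟨c, hc⟩ := (hS.subset (s := S) (t := {c ∈ S | a ≤ c ∧ c < b}) fun _ h => h.1).exists_maximal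
    ⟨a, ha, le_rfl, hab⟩
  refine ⟨c, hc.1.1, hc.1.2.1, hc.1.2.2, fun e he h1 h2 => ?_⟩
  by_cases h : e = b
  · exact Or.inr h
  · exact Or.inl (le_antisymm (hc.2 ⟨he, hc.1.2.1.trans h1, lt_of_le_of_ne h2 h⟩ h1) h1)

lemma cover_chain {α : Type} [PartialOrder α] {S : Set α} (hS : S.Finite) (N : ℕ) :
    ∀ E : ℕ → α, (∀ i ≤ N, E i ∈ S) → (∀ i < N, E i < E (i + 1)) →
      ∃ D : ℕ → α, D N = E N ∧ E 0 ≤ D 0 ∧ (∀ i ≤ N, D i ∈ S) ∧
        ∀ i < N, D i < D (i + 1) ∧ ∀ e ∈ S, D i ≤ e → e ≤ D (i + 1) → e = D i ∨ e = D (i + 1) := by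
  induction N with
  | zero => exact fun E h1 _ => ⟨E, rfl, le_rfl, h1, fun i hi => absurd hi (by omega)⟩
  | succ N ih =>
    intro E h1 h2
    obtain ⟨c, hc, hc1, hc2, hc3⟩ := exists_cover hS (h1 N (by omega)) (h2 N (by omega))
    obtain ⟨D, hD1, hD2, hD3, hD4⟩ := ih (fun i => if i = N then c else E i)
      (fun i hi => by
        split_ifs
        exacts [hc, h1 i (by omega)])
      (fun i hi => by
        rw [if_neg (by omega)]
        split_ifs with h
        · exact lt_of_lt_of_le (h2 i (by omega)) (h ▸ hc1)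
        · exact h2 i (by omega))
    simp only [if_true] at hD1
    refine ⟨fun i => if i = N + 1 then E (N + 1) else D i, by simp, ?_, fun i hi => ?_,
      fun i hi => ?_⟩
    · simp only [Nat.right_eq_add, Nat.add_eq_zero_iff, one_ne_zero, and_false, if_false]
      refine le_trans ?_ hD2
      split_ifs with h
      · exact h ▸ hc1
      · exact le_rfl
    · dsimp only
      split_ifs
      exacts [h1 _ le_rfl, hD3 i (by omega)]
    · dsimp only
      rw [if_neg (by omega)]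
      split_ifs with h
      · obtain rfl : i = N := by omega
        rw [hD1]
        exact ⟨hc2, hc3⟩
      · exact hD4 i (by omega)

theorem config (N : ℕ) (hN : 1 ≤ N) : ∃ A B C : Set T, ∃ X : ℕ → Set T,
    Cov A B ∧ Cov B C ∧ Cov A (X 1) ∧ (∀ i, 1 ≤ i → i < N → Cov (X i) (X (i + 1))) ∧
      Cov (X N) C := by
  obtain ⟨n, rfl⟩ : ∃ n, N = n + 1 := ⟨N - 1, by omega⟩
  obtain ⟨G, hG1, hG2, hG3⟩ := good_MM (n + 1)
  have S : Setup G (om (MM n)) :=
    ⟨hG1, hG2, hG3, fun h => MM_succ_not_le n (le_of_L_le_om h)⟩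
  have hg : ch (n + 1) (n + 1) = L (om (MM n)) := ch_diag _
  have hle : ∀ i ≤ n + 1, Le (ch (n + 1) i) (L (om (MM n))) := fun i hi => hg ▸ ch_le _ hi le_rfl
  have hrep : ∀ i ≤ n + 1, ∃ a ∈ G, Le (ch (n + 1) i) a ∧ Le a (ch (n + 1) i) := by
    intro i hi
    obtain ⟨X, hX⟩ := ch_germ (n + 1) i
    have := hle i hi
    rw [hX] at this ⊢
    exact S.exists_rep this
  have hfin : {D | Dn G (L (om (MM n))) D}.Finite :=
    (At.finite hG1).finite_subsets.subset fun _ h => h.1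
  obtain ⟨D, hD1, hD2, hD3, hD4⟩ := cover_chain hfin (n + 1) (fun i => below G (ch (n + 1) i))
    (fun i hi => dn_below (hle i hi)) (fun i hi => by
      refine ⟨fun a ha => ⟨ha.1, ha.2.trans (ch_lt _ i hi).1⟩, fun h => ?_⟩
      obtain ⟨a, ha, h1, h2⟩ := hrep (i + 1) hi
      exact (ch_lt _ i hi).2 (h1.trans (h ⟨Or.inl ha, h2⟩).2))
  simp only [hg] at hD1
  have hmono : ∀ i ≤ n + 1, D 0 ⊆ D i := by
    intro i hi
    induction i with
    | zero => exact subset_rfl
    | succ i ih => exact (ih (by omega)).trans (hD4 i (by omega)).1.le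
  obtain ⟨a, ha, ha1, ha2⟩ := hrep 0 (by omega)
  have hK : ¬ Le a (om (MM n)) := fun h => K_not_le n (by
    have := ha1.trans h
    rw [ch_zero_succ] at this ⊢
    exact le_of_L_le_om this)
  have S2 : Setup2 G (om (MM n)) (D 0) := by
    refine ⟨S, hD3 0 (by omega), fun h => hK ?_, fun h => ?_, a, ha, ha2.trans (hle 0 (by omega)),
      fun h => ?_, hK⟩
    · exact (At.atom hG2 (Or.inl ha)).le_of_idl (idl_of_L_le_L h)
        (le_gen (S.dn_finite (hD3 0 (by omega))) (hD2 ⟨Or.inl ha, ha2⟩))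
    · exact (hD4 0 (by omega)).1.2 (h ▸ Dn.subset_top (hD3 1 (by omega)))
    · exact (ch_lt _ 0 (by omega)).2 ((hle 1 (by omega)).trans (h.trans ha2))
  have hc : ∀ i < n + 1, Cov (add (L (YX G (L (om (MM n))) (D 0))) (add (PP (D i)) (om (L (om (MM n))))))
      (add (L (YX G (L (om (MM n))) (D 0))) (add (PP (D (i + 1))) (om (L (om (MM n)))))) :=
    fun i hi => S2.cov4 (hD3 i hi.le) (hD3 (i + 1) hi) (hmono i hi.le) (hD4 i hi).1
      fun E hE => (hD4 i hi).2 E hE
  refine ⟨_, _, _, fun i => add (L (YX G (L (om (MM n))) (D 0)))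
    (add (PP (D (i - 1))) (om (L (om (MM n))))), S2.cov1, S2.cov2, S2.cov3, fun i h1 h2 => ?_, ?_⟩
  · obtain ⟨j, rfl⟩ : ∃ j, i = j + 1 := ⟨i - 1, by omega⟩
    exact hc j (by omega)
  · have := hc n (by omega)
    rwa [hD1] at this

/-- an embedding of the Cantor space in the line -/
lemma exists_emb : ∃ e : T → ℝ, IsEmbedding e :=
  ⟨_, IsEmbedding.subtypeVal.comp cantorSetHomeomorphNatToBool.symm.isEmbedding⟩

lemma emb_image_iff {e : T → ℝ} (he : IsEmbedding e) (A B : Set T) :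
    (∃ f : ↥(e '' A) → ↥(e '' B), IsEmbedding f) ↔ Le A B := by
  rw [le_iff_isEmbedding]
  constructor
  · rintro ⟨f, hf⟩
    exact ⟨_, (he.homeomorphImage B).symm.isEmbedding.comp
      (hf.comp (he.homeomorphImage A).isEmbedding)⟩
  · rintro ⟨f, hf⟩
    exact ⟨_, (he.homeomorphImage B).isEmbedding.comp
      (hf.comp (he.homeomorphImage A).symm.isEmbedding)⟩

theorem transfer {e : T → ℝ} (he : IsEmbedding e) {A B : Set T} (h : Cov A B) :
    ((∃ f : ↥(e '' A) → ↥(e '' B), IsEmbedding f) ∧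
      ¬ ∃ g : ↥(e '' B) → ↥(e '' A), IsEmbedding g) ∧
    ¬ ∃ G : Set ℝ, ((∃ f : ↥(e '' A) → ↥G, IsEmbedding f) ∧
      ¬ ∃ g : ↥G → ↥(e '' A), IsEmbedding g) ∧ ((∃ f : ↥G → ↥(e '' B), IsEmbedding f) ∧
      ¬ ∃ g : ↥(e '' B) → ↥G, IsEmbedding g) := by
  refine ⟨⟨(emb_image_iff he A B).2 h.1, fun h' => h.2.1 ((emb_image_iff he B A).1 h')⟩, ?_⟩
  rintro ⟨G, ⟨⟨f1, hf1⟩, hn1⟩, ⟨f2, hf2⟩, hn2⟩
  let φ : G → T := Subtype.val ∘ (he.homeomorphImage B).symm ∘ f2
  have hφ : IsEmbedding φ :=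
    IsEmbedding.subtypeVal.comp ((he.homeomorphImage B).symm.isEmbedding.comp hf2)
  have hZ : range φ ⊆ B := by
    rintro _ ⟨x, rfl⟩
    exact ((he.homeomorphImage B).symm (f2 x)).2
  let ψ : G ≃ₜ range φ := hφ.toHomeomorph
  have hA : Le A (range φ) := le_iff_isEmbedding.2
    ⟨_, ψ.isEmbedding.comp (hf1.comp (he.homeomorphImage A).isEmbedding)⟩
  rcases h.2.2 _ hZ hA with h1 | h1
  · obtain ⟨k, hk⟩ := le_iff_isEmbedding.1 h1
    exact hn1 ⟨_, (he.homeomorphImage A).isEmbedding.comp (hk.comp ψ.isEmbedding)⟩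
  · obtain ⟨k, hk⟩ := le_iff_isEmbedding.1 h1
    exact hn2 ⟨_, ψ.symm.isEmbedding.comp (hk.comp (he.homeomorphImage B).symm.isEmbedding)⟩

end Pool.Agent.MP_f74662_gt

end
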